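import Pool.Agent.R667.PE.Stm

/-! Piece AS of project PE (helper11): the finite separated sets. -/

set_option autoImplicit false

open MeasureTheory Filter Topology

namespace Pool.Agent.R667.PE.ASx

universe u v w

theorem ball_conn {Γ : Type u} [Group Γ] (S : Finset Γ) (W : WM S) (n : ℕ) :
    (ballG S n).Connected := by
  have h1 : (1 : Γ) ∈ Bn S n := by
    show (Cay S).dist 1 1 ≤ n
    rw [SimpleGraph.dist_self]; exact Nat.zero_le _
  have key : ∀ (m : ℕ) (x : Bn S n), dd S 1 (x : Γ) = m →
      (ballG S n).Reachable ⟨1, h1⟩ x := by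
    intro m
    induction m with
    | zero =>
      intro x hx
      have : (1 : Γ) = x := W.eq0 _ _ hx
      have e : x = ⟨1, h1⟩ := Subtype.ext this.symm
      rw [e]
    | succ m ih =>
      intro x hx
      obtain ⟨p, hp1, hp2⟩ := W.geo 1 (x : Γ) m (by omega)
      have hxn : dd S 1 (x : Γ) ≤ n := x.2
      have hpB : p ∈ Bn S n := by
        show dd S 1 p ≤ n
        omega
      have h2 := ih ⟨p, hpB⟩ hp1
      have h3 : (Cay S).Adj p x := (W.adj _ _).2 (by omega)
      have h4 : (ballG S n).Adj ⟨p, hpB⟩ x := h3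
      exact h2.trans h4.reachable
  haveI : Nonempty (Bn S n) := ⟨⟨1, h1⟩⟩
  refine SimpleGraph.Connected.mk ?_
  intro x y
  exact (key _ x rfl).symm.trans (key _ y rfl)

/-- the inclusion of the ball graph -/
def hm {Γ : Type u} [Group Γ] (S : Finset Γ) (n : ℕ) : ballG S n →g Cay S where
  toFun := fun x => (x : Γ)
  map_rel' := fun h => h

/-- avoiding walks in the ball give `Reach` in the Cayley graph -/
theorem reach_of {Γ : Type u} [Group Γ] (S : Finset Γ) (n : ℕ) (K : Set Γ) {x z : Bn S n}
    (p : (ballG S n).Walk x z) (hp : ∀ v ∈ p.support, (v : Γ) ∉ K) :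
    Reach (Cay S) K (x : Γ) (z : Γ) := by
  have key : Reach (Cay S) K (hm S n x) (hm S n z) := by
    refine ⟨p.map (hm S n), ?_⟩
    intro v hv
    rw [SimpleGraph.Walk.support_map, List.mem_map] at hv
    obtain ⟨w, hw, rfl⟩ := hv
    exact hp w hw
  exact key

theorem t_AS : S_AS.{u} := by
  intro Γ _ S R W
  refine ⟨ball_conn S W, ?_⟩
  intro t L1 n x g hxn hgx hsep
  classical
  set G' := ballG S n with hG'
  set A0 : Set (Bn S n) := {z | ∃ p : G'.Walk x z, ∀ v ∈ p.support, (v : Γ) ∉ Kb S R g} with hA0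
  have hfinB : Finite (Bn S n) := (W.fin 1 n).to_subtype
  have hfin : A0.Finite := Set.toFinite _
  set A := hfin.toFinset with hA
  have hmem : ∀ z, z ∈ A ↔ ∃ p : G'.Walk x z, ∀ v ∈ p.support, (v : Γ) ∉ Kb S R g := by
    intro z
    rw [hA, Set.Finite.mem_toFinset]
    rfl
  -- points of A are close to g
  have hclose : ∀ z ∈ A, dd S g (z : Γ) ≤ t + L1 + 2 * R := by
    intro z hz
    obtain ⟨p, hp⟩ := (hmem z).1 hz
    have hr : Reach (Cay S) (Kb S R g) (x : Γ) (z : Γ) := reach_of S n _ p hp
    have hnr : ¬ Reach (Cay S) (Kb S R g) (z : Γ) 1 := fun h => hsep.2.2 (W.rtrans _ _ _ _ hr h)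
    have : ¬ ∀ q, dd S (z : Γ) q + dd S q 1 = dd S (z : Γ) 1 → q ∉ Kb S R g :=
      fun h => hnr (W.rgeo _ _ _ h)
    push Not at this
    obtain ⟨q, hq1, hq2⟩ := this
    have hq3 : dd S g q ≤ R := hq2
    have hz1 : dd S 1 (z : Γ) ≤ n := z.2
    have e1 := W.symm (z : Γ) 1
    have e2 := W.symm (z : Γ) q
    have e3 := W.tri g q (z : Γ)
    have e4 := W.tri 1 q g
    have e5 := W.symm q g
    have e6 := W.symm 1 q
    have e7 := W.tri 1 g (x : Γ)
    omega
  have hcard : A.card ≤ bc S (t + L1 + 2 * R) := by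
    rw [← W.card g (t + L1 + 2 * R), ← Set.ncard_coe_finset A,
      ← Set.ncard_image_of_injective (A : Set (Bn S n)) Subtype.val_injective]
    apply Set.ncard_le_ncard
    · rintro y ⟨z, hz, rfl⟩
      exact hclose z hz
    · exact W.fin g _
  have hxA : x ∈ A := by
    rw [hmem]
    refine ⟨SimpleGraph.Walk.nil, ?_⟩
    intro v hv
    rw [SimpleGraph.Walk.support_nil, List.mem_singleton] at hv
    rw [hv]
    exact hsep.1
  refine ⟨A, hxA, ?_, ?_⟩
  · intro y hy
    obtain ⟨p, hp⟩ := (hmem y).1 hy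
    set q := p.bypass with hq
    have hqs : ∀ v ∈ q.support, v ∈ p.support := fun v hv => p.support_bypass_subset hv
    have hqA : ∀ v ∈ q.support, v ∈ A := by
      intro v hv
      rw [hmem]
      refine ⟨p.takeUntil v (hqs v hv), ?_⟩
      intro u hu
      exact hp u (p.support_takeUntil_subset (hqs v hv) hu)
    have hnd : q.support.Nodup := p.bypass_isPath.support_nodup
    have h1 : q.support.length ≤ A.card := by
      rw [← List.toFinset_card_of_nodup hnd]
      apply Finset.card_le_card
      intro v hv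
      rw [List.mem_toFinset] at hv
      exact hqA v hv
    rw [SimpleGraph.Walk.length_support] at h1
    have h2 := SimpleGraph.dist_le q
    omega
  · intro a ha b hb hab
    by_contra hcon
    apply hb
    obtain ⟨p, hp⟩ := (hmem a).1 ha
    rw [hmem]
    refine ⟨p.concat hab, ?_⟩
    intro v hv
    rw [SimpleGraph.Walk.support_concat] at hv
    rw [List.mem_append, List.mem_singleton] at hv
    rcases hv with hv | hv
    · exact hp v hv
    · rw [hv]
      exact hcon

end Pool.Agent.R667.PE.ASx
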