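import Pool.Agent.R667.PE.Stm

/-! Percolation on ball limits (MP_ac3f41_pr): basic facts on the word metric and on paths. -/

set_option autoImplicit false

namespace Pool.Agent.R667.PE.BASEx

open Pool.Agent.R667.PE

universe u

variable {Γ : Type u} [Group Γ] {S : Finset Γ}

theorem adj_mul (a : Γ) {x y : Γ} (h : (Cay S).Adj x y) : (Cay S).Adj (a * x) (a * y) := by
  obtain ⟨h1, h2⟩ := h
  refine ⟨fun h => h1 (mul_left_cancel h), ?_⟩
  have e1 : (a * x)⁻¹ * (a * y) = x⁻¹ * y := by group
  have e2 : (a * y)⁻¹ * (a * x) = y⁻¹ * x := by group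
  rw [e1, e2]
  exact h2

/-- left multiplication -/
def hom (S : Finset Γ) (a : Γ) : Cay S →g Cay S where
  toFun x := a * x
  map_rel' h := adj_mul a h

theorem conn (hS : GenSet S) : (Cay S).Connected := by
  have h1 : ∀ g ∈ Subgroup.closure (S : Set Γ), ∀ x : Γ, (Cay S).Reachable x (x * g) := by
    intro g hg
    induction hg using Subgroup.closure_induction with
    | mem s hs =>
      intro x
      by_cases h : s = 1
      · rw [h, mul_one]
      · apply SimpleGraph.Adj.reachable
        refine ⟨?_, Or.inl ?_⟩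
        · intro he
          exact h (mul_left_cancel (a := x) (by rw [mul_one]; exact he.symm))
        · have : x⁻¹ * (x * s) = s := by group
          rw [this]; exact hs
    | one => intro x; rw [mul_one]
    | mul a b _ _ ha hb =>
      intro x
      rw [← mul_assoc]
      exact (ha x).trans (hb (x * a))
    | inv a _ ha =>
      intro x
      have := (ha (x * a⁻¹)).symm
      rwa [inv_mul_cancel_right] at this
  have : Nonempty Γ := ⟨1⟩
  refine SimpleGraph.Connected.mk ?_
  intro x y
  have := h1 (x⁻¹ * y) (by rw [hS.gen]; trivial) x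
  rwa [mul_inv_cancel_left] at this

theorem dist_mul_le (hS : GenSet S) (a x y : Γ) : dd S (a * x) (a * y) ≤ dd S x y := by
  obtain ⟨p, hp⟩ := (conn hS).exists_walk_length_eq_dist x y
  have h := SimpleGraph.dist_le (p.map (hom S a))
  rw [SimpleGraph.Walk.length_map, hp] at h
  exact h

theorem inv (hS : GenSet S) (a x y : Γ) : dd S (a * x) (a * y) = dd S x y := by
  apply le_antisymm (dist_mul_le hS a x y)
  have h := dist_mul_le hS a⁻¹ (a * x) (a * y)
  rwa [inv_mul_cancel_left, inv_mul_cancel_left] at h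

theorem seg (hS : GenSet S) {x y : Γ} (w : (Cay S).Walk x y) (i k : ℕ) :
    dd S (w.getVert i) (w.getVert (i + k)) ≤ k := by
  induction k with
  | zero => simp [dd]
  | succ k ih =>
    have h1 : dd S (w.getVert (i + k)) (w.getVert (i + k + 1)) ≤ 1 := by
      by_cases h : i + k < w.length
      · exact le_of_eq (SimpleGraph.dist_eq_one_iff_adj.2 (w.adj_getVert_succ h))
      · rw [w.getVert_of_length_le (by omega), w.getVert_of_length_le (by omega)]
        simp [dd]
    have h2 := (conn hS).dist_triangle (u := w.getVert i) (v := w.getVert (i + k))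
      (w := w.getVert (i + k + 1))
    have e : i + (k + 1) = i + k + 1 := by omega
    rw [e]
    exact h2.trans (by have := ih; simp only [dd] at *; omega)

/-- positions on a geodesic -/
theorem geod (hS : GenSet S) {x y : Γ} (w : (Cay S).Walk x y) (hw : w.length = dd S x y)
    (i : ℕ) (hi : i ≤ w.length) :
    dd S x (w.getVert i) = i ∧ dd S (w.getVert i) y + i = dd S x y := by
  have h1 := seg hS w 0 i
  rw [Nat.zero_add, SimpleGraph.Walk.getVert_zero] at h1
  have h2 := seg hS w i (w.length - i)
  rw [Nat.add_sub_cancel' hi, SimpleGraph.Walk.getVert_length] at h2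
  have h3 := (conn hS).dist_triangle (u := x) (v := w.getVert i) (w := y)
  simp only [dd] at *
  omega

theorem ex_pos {x y : Γ} (w : (Cay S).Walk x y) (v : Γ) (hv : v ∈ w.support) :
    ∃ i, i ≤ w.length ∧ w.getVert i = v := by
  obtain ⟨i, h1, h2⟩ := SimpleGraph.Walk.mem_support_iff_exists_getVert.1 hv
  exact ⟨i, h2, h1⟩

theorem geo (hS : GenSet S) (x y : Γ) (i : ℕ) (hi : i ≤ dd S x y) :
    ∃ p, dd S x p = i ∧ dd S x p + dd S p y = dd S x y := by
  obtain ⟨w, hw⟩ := (conn hS).exists_walk_length_eq_dist x y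
  have h := geod hS w hw i (by rw [hw]; exact hi)
  exact ⟨w.getVert i, h.1, by rw [h.1, Nat.add_comm]; exact h.2⟩

theorem adj1 (x y : Γ) : (Cay S).Adj x y ↔ dd S x y = 1 :=
  SimpleGraph.dist_eq_one_iff_adj.symm

theorem fin (hS : GenSet S) (g : Γ) (n : ℕ) : {x : Γ | dd S g x ≤ n}.Finite := by
  induction n with
  | zero =>
    apply (Set.finite_singleton g).subset
    intro x hx
    have h : dd S g x = 0 := Nat.le_zero.1 hx
    exact ((conn hS).dist_eq_zero_iff.1 h).symm
  | succ n ih =>
    have hN : ∀ y : Γ, {x | (Cay S).Adj y x}.Finite := by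
      intro y
      apply (((S.finite_toSet).image (fun s => y * s)).union
        ((S.finite_toSet).image (fun s => y * s⁻¹))).subset
      intro x hx
      rcases hx.2 with h | h
      · left
        exact ⟨y⁻¹ * x, h, by simp⟩
      · right
        exact ⟨x⁻¹ * y, h, by simp⟩
    apply (ih.union (ih.biUnion (fun y _ => hN y))).subset
    intro x hx
    by_cases h : dd S g x ≤ n
    · exact Or.inl h
    · right
      have hx' : dd S g x = n + 1 := by
        have : dd S g x ≤ n + 1 := hx
        omega
      obtain ⟨p, h1, h2⟩ := geo hS g x n (by omega)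
      refine Set.mem_biUnion (show p ∈ {x : Γ | dd S g x ≤ n} from h1.le) ?_
      rw [Set.mem_ofPred_eq, adj1]
      omega

theorem card (hS : GenSet S) (g : Γ) (n : ℕ) : Set.ncard {x : Γ | dd S g x ≤ n} = bc S n := by
  have h : {x : Γ | dd S g x ≤ n} = (fun x => g * x) '' (Bn S n) := by
    ext x
    constructor
    · intro hx
      refine ⟨g⁻¹ * x, ?_, by simp⟩
      have := inv hS g 1 (g⁻¹ * x)
      rw [mul_one, mul_inv_cancel_left] at this
      rw [Bn, Set.mem_ofPred_eq]
      rw [Set.mem_ofPred_eq, this] at hx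
      exact hx
    · rintro ⟨y, hy, rfl⟩
      have := inv hS g 1 y
      rw [mul_one] at this
      rw [Set.mem_ofPred_eq]
      simp only
      rw [this]
      exact hy
  rw [h, Set.ncard_image_of_injective _ (mul_right_injective g)]
  rfl

theorem sub (hS : GenSet S) (m n : ℕ) : bc S (m + n) ≤ bc S m * bc S n := by
  have h : Bn S (m + n) ⊆ (fun z : Γ × Γ => z.1 * z.2) '' (Bn S m ×ˢ Bn S n) := by
    intro x hx
    obtain ⟨p, h1, h2⟩ := geo hS 1 x (min m (dd S 1 x)) (min_le_right _ _)
    refine ⟨(p, p⁻¹ * x), ⟨?_, ?_⟩, by simp⟩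
    · show dd S 1 p ≤ m
      rw [h1]; exact min_le_left _ _
    · show dd S 1 (p⁻¹ * x) ≤ n
      have e := inv hS p 1 (p⁻¹ * x)
      rw [mul_one, mul_inv_cancel_left] at e
      rw [← e]
      have hx' : dd S 1 x ≤ m + n := hx
      rcases le_total m (dd S 1 x) with h3 | h3
      · rw [min_eq_left h3] at h1; omega
      · rw [min_eq_right h3] at h1; omega
  have hf : (Bn S m ×ˢ Bn S n).Finite := (fin hS 1 m).prod (fin hS 1 n)
  calc bc S (m + n) ≤ ((fun z : Γ × Γ => z.1 * z.2) '' (Bn S m ×ˢ Bn S n)).ncard :=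
        Set.ncard_le_ncard h (hf.image _)
    _ ≤ (Bn S m ×ˢ Bn S n).ncard := Set.ncard_image_le hf
    _ = bc S m * bc S n := Set.ncard_prod

theorem rmap (a : Γ) (K K' : Set Γ) (h : ∀ v, a * v ∈ K' → v ∈ K) (x y : Γ)
    (hr : Reach (Cay S) K x y) : Reach (Cay S) K' (a * x) (a * y) := by
  obtain ⟨p, hp⟩ := hr
  refine ⟨p.map (hom S a), ?_⟩
  intro v hv
  have hv' : v ∈ p.support.map (hom S a) := by
    have e := SimpleGraph.Walk.support_map (hom S a) p
    rw [← e]; exact hv
  rw [List.mem_map] at hv'
  obtain ⟨w, hw, rfl⟩ := hv'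
  intro hk
  exact hp w hw (h w hk)

theorem t_BASE : S_BASE.{u} := by
  intro Γ _ S hS
  refine
    { conn := conn hS
      inv := inv hS
      symm := fun x y => SimpleGraph.dist_comm
      tri := fun x y z => (conn hS).dist_triangle
      self := fun x => SimpleGraph.dist_self
      eq0 := fun x y h => (conn hS).dist_eq_zero_iff.1 h
      fin := fin hS
      card := card hS
      sub := sub hS
      mono := ?_
      pos := ?_
      geo := geo hS
      adj := adj1
      rrefl := ?_
      rsymm := ?_
      rtrans := ?_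
      rleft := ?_
      rright := ?_
      rgeo := ?_
      path := ?_
      rinv := ?_ }
  · intro m n hmn
    exact Set.ncard_le_ncard (fun x hx => le_trans (show dd S 1 x ≤ m from hx) hmn) (fin hS 1 n)
  · intro n
    exact (Set.ncard_pos (fin hS 1 n)).2 ⟨1, by show dd S 1 1 ≤ n; simp [dd]⟩
  · intro K x hx
    refine ⟨SimpleGraph.Walk.nil, ?_⟩
    intro v hv
    rw [SimpleGraph.Walk.support_nil, List.mem_singleton] at hv
    rw [hv]; exact hx
  · rintro K x y ⟨p, hp⟩
    refine ⟨p.reverse, ?_⟩
    intro v hv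
    rw [SimpleGraph.Walk.support_reverse, List.mem_reverse] at hv
    exact hp v hv
  · rintro K x y z ⟨p, hp⟩ ⟨q, hq⟩
    refine ⟨p.append q, ?_⟩
    intro v hv
    rw [SimpleGraph.Walk.mem_support_append_iff] at hv
    rcases hv with h | h
    · exact hp v h
    · exact hq v h
  · rintro K x y ⟨p, hp⟩
    exact hp x p.start_mem_support
  · rintro K x y ⟨p, hp⟩
    exact hp y p.end_mem_support
  · intro K x y h
    obtain ⟨w, hw⟩ := (conn hS).exists_walk_length_eq_dist x y
    refine ⟨w, ?_⟩
    intro v hv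
    obtain ⟨i, hi, rfl⟩ := ex_pos w v hv
    have h1 := geod hS w hw i hi
    exact h _ (by omega)
  · intro x y
    obtain ⟨w, hw⟩ := (conn hS).exists_walk_length_eq_dist x y
    refine ⟨{v | v ∈ w.support}, ?_, ?_, ?_⟩
    · intro v hv
      obtain ⟨i, hi, rfl⟩ := ex_pos w v hv
      have h1 := geod hS w hw i hi
      omega
    · intro p hp q hq hpq
      obtain ⟨i, hi, rfl⟩ := ex_pos w p hp
      obtain ⟨j, hj, rfl⟩ := ex_pos w q hq
      have h1 := geod hS w hw i hi
      have h2 := geod hS w hw j hj
      rw [h1.1, h2.1] at hpq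
      have h3 := seg hS w i (j - i)
      rw [Nat.add_sub_cancel' hpq] at h3
      have h4 := (conn hS).dist_triangle (u := x) (v := w.getVert i) (w := w.getVert j)
      simp only [dd] at *
      omega
    · intro K hK
      exact ⟨w, fun v hv => hK v hv⟩
  · intro R a g x y
    have hK : ∀ (b c v : Γ), b * v ∈ Kb S R (b * c) → v ∈ Kb S R c := by
      intro b c v hv
      have hv' : dd S (b * c) (b * v) ≤ R := hv
      rw [inv hS] at hv'
      exact hv'
    constructor
    · intro h
      have h1 := rmap a⁻¹ (Kb S R (a * g)) (Kb S R g) (fun v hv => by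
        have : a⁻¹ * v ∈ Kb S R (a⁻¹ * (a * g)) := by rwa [inv_mul_cancel_left]
        exact hK _ _ _ this) (a * x) (a * y) h
      rwa [inv_mul_cancel_left, inv_mul_cancel_left] at h1
    · intro h
      exact rmap a (Kb S R g) (Kb S R (a * g)) (fun v hv => hK _ _ _ hv) x y h

end Pool.Agent.R667.PE.BASEx

namespace Pool.Agent.R667.PE

universe u

theorem t_BASE : S_BASE.{u} := BASEx.t_BASE

end Pool.Agent.R667.PE
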