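import Pool.Agent.R667.PE.Stm

/-! Piece BUSH of project PE (MP_ac3f41_pr): big separated sets near every point. -/

set_option autoImplicit false

namespace Pool.Agent.R667.PE

universe u v w

namespace BUSHx

variable {Γ : Type u} [Group Γ] {S : Finset Γ}

/-- Points outside the ball are joined to the sphere of radius `R + 1`. -/
lemma to_sphere (W : WM S) (R : ℕ) (z : Γ) (hz : R < dd S 1 z) :
    ∃ r, dd S 1 r = R + 1 ∧ Reach (Cay S) (Kb S R 1) r z := by
  obtain ⟨p, hp, hpz⟩ := W.geo 1 z (R + 1) hz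
  refine ⟨p, hp, W.rgeo _ _ _ ?_⟩
  intro q hq hK
  have h1 : dd S 1 q ≤ R := hK
  have h2 := W.tri 1 q z
  omega

lemma fin_sub (W : WM S) (a : Γ) (L : ℕ) (p : Γ → Prop) :
    {z : Γ | dd S a z ≤ L ∧ p z}.Finite :=
  (W.fin a L).subset fun _ hz => hz.1

lemma unbdd (W : WM S) [Infinite Γ] (M : ℕ) : ∃ L, M ≤ bc S L := by
  obtain ⟨F, hF⟩ := Infinite.exists_subset_card_eq Γ M
  refine ⟨F.sup fun x => dd S 1 x, ?_⟩
  have h1 : (F : Set Γ) ⊆ Bn S (F.sup fun x => dd S 1 x) := by
    intro x hx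
    exact Finset.le_sup (f := fun x => dd S 1 x) hx
  have h2 := Set.ncard_le_ncard h1 (W.fin 1 _)
  rw [Set.ncard_coe_finset, hF] at h2
  exact h2

/-- One of the components is big. -/
lemma big (W : WM S) (R L : ℕ) (hL : 2 * bc S R ≤ bc S L) :
    ∃ r, dd S 1 r = R + 1 ∧ bc S L ≤ 2 * bc S (R + 1) *
      Set.ncard {z | dd S 1 z ≤ L ∧ Reach (Cay S) (Kb S R 1) r z} := by
  classical
  have hfin : {r : Γ | dd S 1 r = R + 1}.Finite :=
    (W.fin 1 (R + 1)).subset fun r hr => le_of_eq hr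
  by_contra hcon
  push Not at hcon
  set Sp : Finset Γ := hfin.toFinset with hSp
  have hSpm : ∀ r, r ∈ Sp ↔ dd S 1 r = R + 1 := by
    intro r
    rw [hSp, Set.Finite.mem_toFinset]
    rfl
  have hcard : Sp.card ≤ bc S (R + 1) := by
    rw [← Set.ncard_coe_finset]
    refine Set.ncard_le_ncard ?_ (W.fin 1 (R + 1))
    intro r hr
    exact le_of_eq ((hSpm r).1 hr)
  have hcov : Bn S L ⊆ Bn S R ∪ ((Sp.biUnion fun r =>
      (fin_sub W 1 L (fun z => Reach (Cay S) (Kb S R 1) r z)).toFinset : Finset Γ) : Set Γ) := by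
    intro z hz
    by_cases hzR : dd S 1 z ≤ R
    · exact Or.inl hzR
    · right
      push Not at hzR
      obtain ⟨r, hr, hrz⟩ := to_sphere W R z hzR
      rw [Finset.mem_coe, Finset.mem_biUnion]
      refine ⟨r, (hSpm r).2 hr, ?_⟩
      rw [Set.Finite.mem_toFinset]
      exact ⟨hz, hrz⟩
  have h1 : bc S L ≤ bc S R + ∑ r ∈ Sp,
      Set.ncard {z | dd S 1 z ≤ L ∧ Reach (Cay S) (Kb S R 1) r z} := by
    refine (Set.ncard_le_ncard hcov ((W.fin 1 R).union (Finset.finite_toSet _))).trans ?_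
    refine (Set.ncard_union_le _ _).trans ?_
    refine Nat.add_le_add_left ?_ _
    rw [Set.ncard_coe_finset]
    refine Finset.card_biUnion_le.trans ?_
    refine Finset.sum_le_sum fun r _ => ?_
    exact le_of_eq (Set.ncard_eq_toFinset_card _ (fin_sub W 1 L _)).symm
  have h2 : ∀ r ∈ Sp, 2 * bc S (R + 1) *
      Set.ncard {z | dd S 1 z ≤ L ∧ Reach (Cay S) (Kb S R 1) r z} ≤ bc S L - 1 := by
    intro r hr
    have := hcon r ((hSpm r).1 hr)
    omega
  have h3 := Finset.sum_le_sum h2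
  rw [← Finset.mul_sum, Finset.sum_const, smul_eq_mul] at h3
  have h4 := Nat.mul_le_mul_right (bc S L - 1) hcard
  have h5 := W.pos (R + 1)
  have h6 := W.pos L
  have h7 : bc S L ≤ 2 * ∑ r ∈ Sp,
      Set.ncard {z | dd S 1 z ≤ L ∧ Reach (Cay S) (Kb S R 1) r z} := by omega
  have h8 := Nat.mul_le_mul_left (bc S (R + 1)) h7
  have h9 : bc S (R + 1) * (bc S L - 1) < bc S (R + 1) * bc S L :=
    Nat.mul_lt_mul_of_pos_left (by omega) (by omega)
  have h10 : bc S (R + 1) * (2 * ∑ r ∈ Sp,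
      Set.ncard {z | dd S 1 z ≤ L ∧ Reach (Cay S) (Kb S R 1) r z}) =
      2 * bc S (R + 1) * ∑ r ∈ Sp,
      Set.ncard {z | dd S 1 z ≤ L ∧ Reach (Cay S) (Kb S R 1) r z} := by ring
  omega

/-- Translates of a component. -/
lemma translate (W : WM S) (R L : ℕ) (a r : Γ) (h1 : (1 : Γ) ∉ Kb S R a)
    (h2 : ¬ Reach (Cay S) (Kb S R a) (a * r) 1) :
    Set.ncard {z | dd S 1 z ≤ L ∧ Reach (Cay S) (Kb S R 1) r z} ≤
      Set.ncard {z | dd S a z ≤ L ∧ Sep S R a z 1} := by
  refine Set.ncard_le_ncard_of_injOn (fun z => a * z) ?_ ?_ (fin_sub W a L _)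
  · rintro z ⟨hz1, hz2⟩
    have hd : dd S a (a * z) = dd S 1 z := by
      have := W.inv a 1 z
      rwa [mul_one] at this
    refine ⟨by rw [hd]; exact hz1, ?_, h1, ?_⟩
    · intro hK
      have hK' : dd S a (a * z) ≤ R := hK
      rw [hd] at hK'
      exact W.rright _ _ _ hz2 hK'
    · intro hR
      apply h2
      refine W.rtrans _ _ _ _ ?_ hR
      have := (W.rinv R a 1 r z).2 hz2
      rwa [mul_one] at this
  · intro z _ z' _ h
    exact mul_left_cancel h

end BUSHx

open BUSHx in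
theorem t_BUSH : S_BUSH.{u} := by
  intro Γ _ S R W hR hinf hV
  choose av hav1 hav2 hav3 using hV
  have hfin : {r : Γ | dd S 1 r = R + 1}.Finite :=
    (W.fin 1 (R + 1)).subset fun r hr => le_of_eq hr
  obtain ⟨L0, hL0⟩ := unbdd W (2 * bc S R)
  refine ⟨hfin.toFinset.sup fun r => dd S 1 (av r), L0, 2 * bc S (R + 1), ?_⟩
  intro y hy L hL
  obtain ⟨r, hr, hbig⟩ := big W R L (hL0.trans (W.mono _ _ hL))
  by_cases hA : Reach (Cay S) (Kb S R y) (y * r) 1
  · -- case B
    set a := y * av r with ha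
    have hya : dd S y a = dd S 1 (av r) := by
      have := W.inv y 1 (av r)
      rwa [mul_one] at this
    have hc1 : Reach (Cay S) (Kb S R a) 1 y := by
      apply W.rgeo
      intro q hq hK
      have hK' : dd S a q ≤ R := hK
      have hfar := hav1 r
      apply hav2 r
      have e1 : Reach (Cay S) (Kb S R y) 1 q := by
        apply W.rgeo
        intro p hp hpK
        have hpK' : dd S y p ≤ R := hpK
        have t1 := W.tri 1 p y
        have t2 := W.symm p y
        have t3 := W.tri y q a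
        have t4 := W.symm y q
        have t5 := W.symm q a
        omega
      have e2 : Reach (Cay S) (Kb S R y) q a := by
        apply W.rgeo
        intro p hp hpK
        have hpK' : dd S y p ≤ R := hpK
        have t1 := W.tri y p a
        have t5 := W.symm q a
        omega
      have e3 := W.rtrans _ _ _ _ hA (W.rtrans _ _ _ _ e1 e2)
      have := (W.rinv R y 1 r (av r)).1
      rw [mul_one] at this
      exact this e3
    have hc2 : ¬ Reach (Cay S) (Kb S R a) (a * r) y := by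
      intro h
      apply hav3 r
      have := (W.rinv R a 1 r (av r)⁻¹).1
      rw [mul_one, show a * (av r)⁻¹ = y by rw [ha]; group] at this
      exact this h
    refine ⟨a, ?_, hbig.trans (Nat.mul_le_mul_left _ (translate W R L a r ?_ ?_))⟩
    · rw [hya]
      exact Finset.le_sup (f := fun r => dd S 1 (av r)) (by
        rw [Set.Finite.mem_toFinset]; exact hr)
    · exact W.rleft _ _ _ hc1
    · intro h
      exact hc2 (W.rtrans _ _ _ _ h hc1)
  · refine ⟨y, by rw [W.self]; exact Nat.zero_le _, hbig.trans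
      (Nat.mul_le_mul_left _ (translate W R L y r ?_ hA))⟩
    intro hK
    have hK' : dd S y 1 ≤ R := hK
    rw [W.symm] at hK'
    omega

end Pool.Agent.R667.PE
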