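import Pool.Agent.R667.PE.Stm

/-! Piece CNT of project PE (helper667, MP_ac3f41_pr), by helper510. -/

set_option autoImplicit false

namespace Pool.Agent.R667.PE.CNTx

open Pool.Agent.R667.PE

universe u

variable {Γ : Type u} [Group Γ]

theorem geom {S : Finset Γ} {R : ℕ} {par : Γ → Γ} (W : WM S) (hp : Par S par) (hc : CTC S R)
    (x : Γ) (q l : ℕ) (hql : q + l ≤ dd S 1 x) (g : Γ)
    (hg : GoodCut S R g (par^[q] x) (par^[q + l] x)) :
    Sep S R g x 1 ∧ dd S g x ≤ R + (q + l) ∧ ∃ p, dd S g p ≤ R ∧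
      dd S 1 p + q + 2 * R < dd S 1 x ∧ dd S 1 x + 2 * R < dd S 1 p + q + l := by
  obtain ⟨h1, h2⟩ := hp x q (by omega)
  set x' := par^[q] x with hx'
  have hy : par^[q + l] x = par^[l] x' := by
    rw [add_comm, Function.iterate_add_apply]
  obtain ⟨h3, h4⟩ := hp x' l (by omega)
  rw [hy] at hg
  set y := par^[l] x' with hyd
  obtain ⟨hs, p, hgp, hyp, h5, h6⟩ := hc g y x' x (by omega) (by omega) hg
  refine ⟨hs, ?_, p, hgp, ?_⟩
  · have t1 := W.tri g p x
    have t2 := W.tri p x' x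
    omega
  · have t1 := W.tri 1 y p
    have t2 := W.tri 1 p x'
    constructor <;> omega

theorem far {S : Finset Γ} {R : ℕ} (W : WM S) {g g' p p' : Γ} {n q l q' : ℕ}
    (h1 : dd S g p ≤ R) (h2 : dd S g' p' ≤ R) (h3 : n + 2 * R < dd S 1 p + q + l)
    (h4 : dd S 1 p' + q' + 2 * R < n) (h5 : q + l + 2 ≤ q') : 2 * R + 1 < dd S g g' := by
  have t1 := W.tri 1 p' p
  have t2 := W.tri p' g' p
  have t3 := W.tri g' g p
  have s1 := W.symm p' g'
  have s2 := W.symm g' g
  omega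

/-- the stages -/
def qs (J : ℕ → ℕ) : ℕ → ℕ
  | 0 => 0
  | i + 1 => qs J i + J (qs J i) + 2

theorem qs_mono (J : ℕ → ℕ) {i j : ℕ} (h : i ≤ j) : qs J i ≤ qs J j := by
  induction j, h using Nat.le_induction with
  | base => exact le_rfl
  | succ j _ ih => exact ih.trans (by simp only [qs]; omega)

theorem qs_lt (J : ℕ → ℕ) {i j : ℕ} (h : i < j) : qs J i + J (qs J i) + 2 ≤ qs J j :=
  (le_of_eq rfl : qs J i + J (qs J i) + 2 ≤ qs J (i + 1)).trans (qs_mono J h)

theorem t_CNT : S_CNT.{u} := by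
  intro Γ _ S R par W hR hp hst hgr hc k ε hε
  set δ : ℝ := ε / (2 * (k + 1)) with hδ
  have hδ0 : 0 < δ := by positivity
  choose J N hJ using fun q => hst q δ hδ0
  obtain ⟨E, hE⟩ := exists_nat_ge (2 / ε)
  obtain ⟨T, m0, hgr⟩ := hgr E
  refine ⟨T, R + qs J k, m0 + T + qs J k + ∑ i ∈ Finset.range k, N (qs J i), fun n hn => ?_⟩
  have hN : ∀ i : Fin k, N (qs J i) ≤ n := by
    intro i
    have : N (qs J i) ≤ ∑ i ∈ Finset.range k, N (qs J i) :=
      Finset.single_le_sum (f := fun i => N (qs J i)) (fun _ _ => Nat.zero_le _)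
        (Finset.mem_range.2 i.2)
    omega
  choose l hlJ hl using fun i : Fin k => hJ (qs J i) n (hN i)
  set Bad : Fin k → Set Γ := fun i => {x : Γ | dd S 1 x ≤ n ∧ qs J i + J (qs J i) ≤ dd S 1 x ∧
      ¬ ∃ g, GoodCut S R g (par^[qs J i] x) (par^[qs J i + l i] x)} with hBad
  set Bll : Set Γ := {x : Γ | dd S 1 x ≤ n - T} with hBll
  have hfin : (Bll ∪ ⋃ i, Bad i).Finite := by
    refine (W.fin 1 (n - T)).union (Set.finite_iUnion fun i => ?_)
    exact (W.fin 1 n).subset fun x hx => hx.1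
  have hsub : {x : Γ | dd S 1 x ≤ n ∧ ¬ (n ≤ dd S 1 x + T ∧ ∃ g : Fin k → Γ,
      (∀ i, Sep S R (g i) x 1 ∧ dd S (g i) x ≤ R + qs J k) ∧
        ∀ i j, i ≠ j → 2 * R + 1 < dd S (g i) (g j))} ⊆ Bll ∪ ⋃ i, Bad i := by
    rintro x ⟨hx, hno⟩
    by_cases hxn : n ≤ dd S 1 x + T
    · right
      by_contra hcon
      rw [Set.mem_iUnion] at hcon
      push Not at hcon
      apply hno
      refine ⟨hxn, ?_⟩
      have hgood : ∀ i : Fin k, ∃ g,
          GoodCut S R g (par^[qs J i] x) (par^[qs J i + l i] x) := by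
        intro i
        by_contra hng
        refine hcon i ⟨hx, ?_, hng⟩
        have := qs_lt J i.2
        omega
      choose g hg using hgood
      have hgeo : ∀ i : Fin k, Sep S R (g i) x 1 ∧ dd S (g i) x ≤ R + (qs J i + l i) ∧
          ∃ p, dd S (g i) p ≤ R ∧ dd S 1 p + qs J i + 2 * R < dd S 1 x ∧
            dd S 1 x + 2 * R < dd S 1 p + qs J i + l i := by
        intro i
        refine geom W hp hc x (qs J i) (l i) ?_ (g i) (hg i)
        have := qs_lt J i.2
        have := hlJ i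
        omega
      have key : ∀ i j : Fin k, i < j → 2 * R + 1 < dd S (g i) (g j) := by
        intro i j hij
        obtain ⟨-, -, p, a1, -, a3⟩ := hgeo i
        obtain ⟨-, -, p', b1, b2, -⟩ := hgeo j
        refine far W a1 b1 a3 b2 ?_
        have := qs_lt J (show (i : ℕ) < (j : ℕ) from hij)
        have := hlJ i
        omega
      refine ⟨g, fun i => ⟨(hgeo i).1, ?_⟩, fun i j hij => ?_⟩
      · have h1 := (hgeo i).2.1
        have := qs_lt J i.2
        have := hlJ i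
        omega
      · rcases lt_or_gt_of_ne hij with h | h
        · exact key i j h
        · rw [W.symm]; exact key j i h
    · left
      simp only [hBll, Set.mem_setOf_eq]
      omega
  have h1 : (Set.ncard {x : Γ | dd S 1 x ≤ n ∧ ¬ (n ≤ dd S 1 x + T ∧ ∃ g : Fin k → Γ,
      (∀ i, Sep S R (g i) x 1 ∧ dd S (g i) x ≤ R + qs J k) ∧
        ∀ i j, i ≠ j → 2 * R + 1 < dd S (g i) (g j))} : ℝ) ≤
      (Bll.ncard : ℝ) + ∑ i, ((Bad i).ncard : ℝ) := by
    have a1 := Set.ncard_le_ncard hsub hfin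
    have a2 := Set.ncard_union_le Bll (⋃ i, Bad i)
    have a3 : (⋃ i, Bad i).ncard ≤ ∑ i, (Bad i).ncard := by
      have := Set.ncard_iUnion_le_of_fintype Bad
      exact this
    have a4 := a1.trans (a2.trans (Nat.add_le_add_left a3 _))
    exact_mod_cast a4
  refine h1.trans ?_
  have hbc : (0 : ℝ) ≤ (bc S n : ℝ) := Nat.cast_nonneg _
  have h2 : (Bll.ncard : ℝ) ≤ ε / 2 * bc S n := by
    have b1 : Bll.ncard = bc S (n - T) := W.card 1 (n - T)
    have b2 := hgr (n - T) (by omega)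
    have b3 : n - T + T = n := by omega
    rw [b3] at b2
    have b4 : (E : ℝ) * (bc S (n - T) : ℝ) ≤ (bc S n : ℝ) := by exact_mod_cast b2
    rw [b1]
    have b5 : 2 / ε * (bc S (n - T) : ℝ) ≤ bc S n :=
      (mul_le_mul_of_nonneg_right hE (Nat.cast_nonneg _)).trans b4
    rw [div_mul_eq_mul_div, div_le_iff₀ hε] at b5
    linarith
  have h3 : ∑ i, ((Bad i).ncard : ℝ) ≤ k * (δ * bc S n) := by
    calc ∑ i, ((Bad i).ncard : ℝ) ≤ ∑ _i : Fin k, δ * bc S n :=
          Finset.sum_le_sum fun i _ => hl i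
      _ = k * (δ * bc S n) := by simp
  have h4 : k * (δ * bc S n) ≤ ε / 2 * bc S n := by
    have : (k : ℝ) * δ ≤ ε / 2 := by
      rw [hδ, mul_div_assoc', div_le_div_iff₀ (by positivity) (by norm_num)]
      nlinarith
    calc k * (δ * (bc S n : ℝ)) = k * δ * bc S n := by ring
      _ ≤ ε / 2 * bc S n := mul_le_mul_of_nonneg_right this hbc
  linarith

end Pool.Agent.R667.PE.CNTx
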