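import Pool.Agent.R667.PE.Stm

/-! PE: cut transfer. -/

set_option autoImplicit false

namespace Pool.Agent.R667.PE.CTx

open Pool.Agent.R667.PE

universe u

theorem t_CT : S_CT.{u} := by
  intro Γ _ S R W g y x' x h1 h2 hc
  obtain ⟨⟨hs1, hs2, hs3⟩, hg1, hg2⟩ := hc
  -- the crossing point
  have hp : ∃ p, dd S x' p + dd S p y = dd S x' y ∧ p ∈ Kb S R g := by
    by_contra hno
    push Not at hno
    exact hs3 (W.rgeo _ _ _ fun p hp => hno p hp)
  obtain ⟨p0, hp0, hp1⟩ := hp
  have hp1' : dd S g p0 ≤ R := hp1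
  have e1 := W.symm x' p0
  have e2 := W.symm p0 y
  have e3 := W.symm x' y
  have t1 := W.tri g p0 y
  have t2 := W.tri g p0 x'
  have far1 : 2 * R < dd S y p0 := by omega
  have far2 : 2 * R < dd S p0 x' := by omega
  -- levels of the crossing point
  have l1 := W.tri 1 p0 x'
  have l2 := W.tri 1 y p0
  -- `1 ~ y`
  have r1 : Reach (Cay S) (Kb S R g) 1 y := by
    refine W.rgeo _ _ _ fun p hp hK => ?_
    have hK' : dd S g p ≤ R := hK
    have a1 := W.tri 1 p p0
    have a2 := W.tri p g p0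
    have a3 := W.symm p g
    omega
  have r2 : Reach (Cay S) (Kb S R g) x' x := by
    refine W.rgeo _ _ _ fun p hp hK => ?_
    have hK' : dd S g p ≤ R := hK
    have a1 := W.tri 1 p0 p
    have a2 := W.tri p0 g p
    have a3 := W.symm p0 g
    have a4 := W.tri 1 p x
    omega
  refine ⟨⟨W.rright _ _ _ r2, W.rleft _ _ _ r1, fun hr => ?_⟩, p0, hp1', ?_, far1, far2⟩
  · exact hs3 (W.rtrans _ _ _ _ r2 (W.rtrans _ _ _ _ hr r1))
  · omega

end Pool.Agent.R667.PE.CTx
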