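import Mathlib

/-! Percolation on ball limits of Cayley graphs with infinitely many ends (MP_ac3f41_pr): definitions. -/

set_option autoImplicit false

open MeasureTheory Filter Topology

namespace Pool.Agent.R667.PE

universe u v w

/-- a finite symmetric generating set -/
structure GenSet {Γ : Type u} [Group Γ] (S : Finset Γ) : Prop where
  symm : ∀ s ∈ S, s⁻¹ ∈ S
  gen : Subgroup.closure (S : Set Γ) = ⊤

/-- the Cayley graph -/
def Cay {Γ : Type u} [Group Γ] (S : Finset Γ) : SimpleGraph Γ where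
  Adj x y := x ≠ y ∧ (x⁻¹ * y ∈ S ∨ y⁻¹ * x ∈ S)
  symm := ⟨fun _ _ h => ⟨h.1.symm, h.2.symm⟩⟩
  loopless := ⟨fun _ h => h.1 rfl⟩

/-- `x` and `y` are joined by a path that avoids the vertex set `K` -/
def Reach {V : Type u} (G : SimpleGraph V) (K : Set V) (x y : V) : Prop :=
  ∃ p : G.Walk x y, ∀ v ∈ p.support, v ∉ K

/-- for some finite vertex set `K`, the complement of `K` has at least three infinite components -/
def ManyEnds {V : Type u} (G : SimpleGraph V) : Prop :=
  ∃ K : Finset V, ∃ x : Fin 3 → V,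
    (∀ i, {y | Reach G (K : Set V) (x i) y}.Infinite) ∧
      ∀ i j, i ≠ j → ¬ Reach G (K : Set V) (x i) (x j)

/-- the ball of radius `n` around the identity, as a set of vertices -/
def Bn {Γ : Type u} [Group Γ] (S : Finset Γ) (n : ℕ) : Set Γ := {g | (Cay S).dist 1 g ≤ n}

/-- the graph induced on the ball of radius `n` -/
def ballG {Γ : Type u} [Group Γ] (S : Finset Γ) (n : ℕ) : SimpleGraph (Bn S n) :=
  (Cay S).induce (Bn S n)

/-- the ball of radius `r` around `x` in the connected graph `X` is isomorphic, as a rooted graph,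
to the graph `F` rooted at `φ` -/
def BallIso {V : Type u} (X : SimpleGraph V) (x : V) (r : ℕ) {m : ℕ} (F : SimpleGraph (Fin m))
    (φ : Fin m) : Prop :=
  ∃ e : F ≃g X.induce {y | X.dist x y ≤ r}, (e φ : V) = x

/-- the proportion of the vertices of the ball of radius `n` around which the ball of radius `r`
(in the graph induced on the ball of radius `n`) is isomorphic to `(F, φ)` -/
noncomputable def frac {Γ : Type u} [Group Γ] (S : Finset Γ) (n r : ℕ) {m : ℕ}
    (F : SimpleGraph (Fin m)) (φ : Fin m) : ℝ :=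
  (Set.ncard {x : Bn S n | BallIso (ballG S n) x r F φ} : ℝ) / (Set.ncard (Bn S n) : ℝ)

/-- the random rooted graph `(H, ρ)` is a limit along balls of the Cayley graph -/
structure IsBallLimit {Γ : Type u} [Group Γ] (S : Finset Γ) {Ω : Type v} [MeasurableSpace Ω]
    (P : Measure Ω) (V : Ω → Type w) (H : ∀ ω, SimpleGraph (V ω)) (ρ : ∀ ω, V ω) : Prop where
  prob : IsProbabilityMeasure P
  conn : ∀ ω, (H ω).Connected
  locfin : ∀ ω v, ((H ω).neighborSet v).Finite
  meas : ∀ (r m : ℕ) (F : SimpleGraph (Fin m)) (φ : Fin m),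
    MeasurableSet {ω | BallIso (H ω) (ρ ω) r F φ}
  lim : ∃ n : ℕ → ℕ, StrictMono n ∧ ∀ (r m : ℕ) (F : SimpleGraph (Fin m)) (φ : Fin m),
    Tendsto (fun k => frac S (n k) r F φ) atTop (𝓝 (P.real {ω | BallIso (H ω) (ρ ω) r F φ}))

/-- the Bernoulli law with parameter `p` -/
noncomputable def ber (p : ℝ) : Measure Bool :=
  ENNReal.ofReal p • Measure.dirac true + ENNReal.ofReal (1 - p) • Measure.dirac false

/-- Bernoulli bond percolation with parameter `p`: independent states for all unordered pairs -/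
noncomputable def perc (V : Type u) (p : ℝ) : Measure (Sym2 V → Bool) :=
  Measure.infinitePi fun _ => ber p

/-- the graph of open edges -/
def openG {V : Type u} (X : SimpleGraph V) (η : Sym2 V → Bool) : SimpleGraph V where
  Adj x y := X.Adj x y ∧ η s(x, y) = true
  symm := ⟨fun _ _ h => ⟨h.1.symm, by rw [Sym2.eq_swap]; exact h.2⟩⟩
  loopless := ⟨fun _ h => h.1.ne rfl⟩

/-- there is an infinite open cluster -/
def InfCluster {V : Type u} (X : SimpleGraph V) (η : Sym2 V → Bool) : Prop :=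
  ∃ x, {y | (openG X η).Reachable x y}.Infinite

/-- the critical probability -/
noncomputable def pc {V : Type u} (X : SimpleGraph V) : ℝ :=
  sInf {p : ℝ | p ∈ Set.Icc (0 : ℝ) 1 ∧ 0 < perc V p {η | InfCluster X η}}

/-! ### notions used in the proof -/

/-- the word metric -/
noncomputable abbrev dd {Γ : Type u} [Group Γ] (S : Finset Γ) (x y : Γ) : ℕ := (Cay S).dist x y

/-- the ball of radius `R` around `g` -/
def Kb {Γ : Type u} [Group Γ] (S : Finset Γ) (R : ℕ) (g : Γ) : Set Γ := {y | dd S g y ≤ R}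

/-- the cardinality of the ball of radius `n` -/
noncomputable def bc {Γ : Type u} [Group Γ] (S : Finset Γ) (n : ℕ) : ℕ := Set.ncard (Bn S n)

/-- the ball of radius `R` around `g` separates `x` from `y` -/
def Sep {Γ : Type u} [Group Γ] (S : Finset Γ) (R : ℕ) (g x y : Γ) : Prop :=
  x ∉ Kb S R g ∧ y ∉ Kb S R g ∧ ¬ Reach (Cay S) (Kb S R g) x y

/-- a separating ball far from both points -/
def GoodCut {Γ : Type u} [Group Γ] (S : Finset Γ) (R : ℕ) (g x y : Γ) : Prop :=
  Sep S R g x y ∧ 3 * R < dd S g x ∧ 3 * R < dd S g y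

/-- no good cut between `u` and `1` -/
def Core {Γ : Type u} [Group Γ] (S : Finset Γ) (R : ℕ) (x : Γ) : Prop :=
  ¬ ∃ g, GoodCut S R g x 1

/-- number of core points at distance `j` from `1` -/
noncomputable def aa {Γ : Type u} [Group Γ] (S : Finset Γ) (R j : ℕ) : ℕ :=
  Set.ncard {x : Γ | dd S 1 x = j ∧ Core S R x}

/-- the component of `x` in the complement of the ball of radius `R` around `1` is infinite -/
def InfC {Γ : Type u} [Group Γ] (S : Finset Γ) (R : ℕ) (x : Γ) : Prop :=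
  {y | Reach (Cay S) (Kb S R 1) x y}.Infinite

/-- at least three infinite components outside the ball of radius `R` -/
def Three {Γ : Type u} [Group Γ] (S : Finset Γ) (R : ℕ) : Prop :=
  ∃ x : Fin 3 → Γ, (∀ i, InfC S R (x i)) ∧
    ∀ i j, i ≠ j → ¬ Reach (Cay S) (Kb S R 1) (x i) (x j)

/-- basic facts on the word metric and on paths -/
structure WM {Γ : Type u} [Group Γ] (S : Finset Γ) : Prop where
  conn : (Cay S).Connected
  inv : ∀ a x y : Γ, dd S (a * x) (a * y) = dd S x y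
  symm : ∀ x y : Γ, dd S x y = dd S y x
  tri : ∀ x y z : Γ, dd S x z ≤ dd S x y + dd S y z
  self : ∀ x : Γ, dd S x x = 0
  eq0 : ∀ x y : Γ, dd S x y = 0 → x = y
  fin : ∀ (g : Γ) (n : ℕ), {x : Γ | dd S g x ≤ n}.Finite
  card : ∀ (g : Γ) (n : ℕ), Set.ncard {x : Γ | dd S g x ≤ n} = bc S n
  sub : ∀ m n : ℕ, bc S (m + n) ≤ bc S m * bc S n
  mono : ∀ m n : ℕ, m ≤ n → bc S m ≤ bc S n
  pos : ∀ n : ℕ, 1 ≤ bc S n
  geo : ∀ (x y : Γ) (i : ℕ), i ≤ dd S x y → ∃ p, dd S x p = i ∧ dd S x p + dd S p y = dd S x y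
  adj : ∀ x y : Γ, (Cay S).Adj x y ↔ dd S x y = 1
  rrefl : ∀ (K : Set Γ) (x : Γ), x ∉ K → Reach (Cay S) K x x
  rsymm : ∀ (K : Set Γ) (x y : Γ), Reach (Cay S) K x y → Reach (Cay S) K y x
  rtrans : ∀ (K : Set Γ) (x y z : Γ), Reach (Cay S) K x y → Reach (Cay S) K y z →
    Reach (Cay S) K x z
  rleft : ∀ (K : Set Γ) (x y : Γ), Reach (Cay S) K x y → x ∉ K
  rright : ∀ (K : Set Γ) (x y : Γ), Reach (Cay S) K x y → y ∉ K
  rgeo : ∀ (K : Set Γ) (x y : Γ), (∀ p, dd S x p + dd S p y = dd S x y → p ∉ K) →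
    Reach (Cay S) K x y
  path : ∀ x y : Γ, ∃ Gd : Set Γ, (∀ p ∈ Gd, dd S x p + dd S p y = dd S x y) ∧
    (∀ p ∈ Gd, ∀ q ∈ Gd, dd S x p ≤ dd S x q → dd S x p + dd S p q = dd S x q) ∧
    ∀ K : Set Γ, (∀ p ∈ Gd, p ∉ K) → Reach (Cay S) K x y
  rinv : ∀ (R : ℕ) (a g x y : Γ), Reach (Cay S) (Kb S R (a * g)) (a * x) (a * y) ↔
    Reach (Cay S) (Kb S R g) x y

/-- the edge boundary of a set of vertices -/
def bd {V : Type u} (X : SimpleGraph V) (A : Set V) : Set (Sym2 V) :=
  {e | ∃ x ∈ A, ∃ y ∉ A, X.Adj x y ∧ e = s(x, y)}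

/-- `k` finite sets around `x`, inside the ball of radius `L`, with disjoint edge boundaries of
at most `M` edges -/
def Cut {V : Type u} (X : SimpleGraph V) (x : V) (M k L : ℕ) : Prop :=
  ∃ A : Fin k → Finset V, (∀ i, x ∈ A i) ∧ (∀ i, ∀ y ∈ A i, X.dist x y ≤ L) ∧
    (∀ i, (bd X (A i : Set V)).Finite ∧ (bd X (A i : Set V)).ncard ≤ M) ∧
    ∀ i j, i ≠ j → Disjoint (bd X (A i : Set V)) (bd X (A j : Set V))

end Pool.Agent.R667.PE
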