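import Pool.Agent.R667.PE.Stm

set_option autoImplicit false

namespace Pool.Agent.R667.PE

universe u v w

namespace EXPx

variable {Γ : Type u} [Group Γ] {S : Finset Γ} {R : ℕ}

/-- the part of the component inside the ball -/
def AB (S : Finset Γ) (R : ℕ) (x : Γ) (r : ℕ) : Set Γ :=
  {y | Reach (Cay S) (Kb S R 1) x y ∧ dd S 1 y ≤ r}

theorem AB_fin (h : WM S) (x : Γ) (r : ℕ) : (AB S R x r).Finite :=
  (h.fin 1 r).subset fun _ hy => hy.2

theorem AB_mono (x : Γ) {r r' : ℕ} (hr : r ≤ r') : AB S R x r ⊆ AB S R x r' :=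
  fun _ hy => ⟨hy.1, hy.2.trans hr⟩

theorem exists_far (h : WM S) {x : Γ} (hx : InfC S R x) (r : ℕ) :
    ∃ w, Reach (Cay S) (Kb S R 1) x w ∧ r < dd S 1 w := by
  by_contra hc
  push Not at hc
  exact hx ((h.fin 1 r).subset fun y hy => hc y hy)

/-- the translate of a good component lies in the component of `x` -/
theorem key (h : WM S) {x w c z : Γ} (hxw : Reach (Cay S) (Kb S R 1) x w)
    (hw : 2 * R < dd S 1 w) (hc : ¬ Reach (Cay S) (Kb S R w) (w * c) 1)
    (hz : Reach (Cay S) (Kb S R 1) c z) : Reach (Cay S) (Kb S R 1) x (w * z) := by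
  have hz' : Reach (Cay S) (Kb S R w) (w * c) (w * z) := by
    have := (h.rinv R w 1 c z).mpr hz
    rwa [mul_one] at this
  refine h.rtrans _ _ _ _ hxw (h.rsymm _ _ _ ?_)
  refine h.rgeo _ _ _ ?_
  intro q hq hqK
  have hqR : dd S 1 q ≤ R := hqK
  apply hc
  refine h.rtrans _ _ _ _ hz' ?_
  have hqw : dd S 1 w ≤ dd S 1 q + dd S q w := h.tri 1 q w
  refine h.rtrans _ _ q _ ?_ ?_
  · refine h.rgeo _ _ _ ?_
    intro p hp hpK
    have hpR : dd S w p ≤ R := hpK
    have h1 : dd S (w * z) w ≤ dd S (w * z) p + dd S p w := h.tri _ _ _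
    have h2 : dd S p w = dd S w p := h.symm _ _
    omega
  · refine h.rgeo _ _ _ ?_
    intro p hp hpK
    have hpR : dd S w p ≤ R := hpK
    have h1 : dd S 1 w ≤ dd S 1 p + dd S p w := h.tri _ _ _
    have h2 : dd S p w = dd S w p := h.symm _ _
    have h3 : dd S p 1 = dd S 1 p := h.symm _ _
    have h4 : dd S q 1 = dd S 1 q := h.symm _ _
    omega

theorem not_both (h : WM S) {w c c' : Γ} (hcc : ¬ Reach (Cay S) (Kb S R 1) c c')
    (h1 : Reach (Cay S) (Kb S R w) (w * c) 1) (h2 : Reach (Cay S) (Kb S R w) (w * c') 1) :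
    False := by
  apply hcc
  have := h.rtrans _ _ _ _ h1 (h.rsymm _ _ _ h2)
  have h3 := (h.rinv R w 1 c c').mp (by rwa [mul_one])
  exact h3

/-- two of the three -/
theorem two_good (h : WM S) {c : Fin 3 → Γ}
    (hc : ∀ i j, i ≠ j → ¬ Reach (Cay S) (Kb S R 1) (c i) (c j)) (w : Γ) :
    ∃ i j : Fin 3, i ≠ j ∧ ¬ Reach (Cay S) (Kb S R w) (w * c i) 1 ∧
      ¬ Reach (Cay S) (Kb S R w) (w * c j) 1 := by
  by_cases h0 : Reach (Cay S) (Kb S R w) (w * c 0) 1
  · refine ⟨1, 2, by decide, fun h1 => ?_, fun h1 => ?_⟩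
    · exact not_both h (hc 0 1 (by decide)) h0 h1
    · exact not_both h (hc 0 2 (by decide)) h0 h1
  · by_cases h1 : Reach (Cay S) (Kb S R w) (w * c 1) 1
    · exact ⟨0, 2, by decide, h0, fun h2 => not_both h (hc 1 2 (by decide)) h1 h2⟩
    · exact ⟨0, 1, by decide, h0, h1⟩

theorem len_mul (h : WM S) (w z : Γ) : dd S 1 (w * z) ≤ dd S 1 w + dd S 1 z := by
  have h1 := h.tri 1 w (w * z)
  have h2 := h.inv w 1 z
  rw [mul_one] at h2
  omega

/-- the doubling inequality -/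
theorem doubling (h : WM S) {x w a b : Γ} (hxw : Reach (Cay S) (Kb S R 1) x w)
    (hw : 2 * R < dd S 1 w) (hab : ¬ Reach (Cay S) (Kb S R 1) a b)
    (ha : ¬ Reach (Cay S) (Kb S R w) (w * a) 1) (hb : ¬ Reach (Cay S) (Kb S R w) (w * b) 1)
    (r : ℕ) :
    (AB S R a r).ncard + (AB S R b r).ncard ≤ (AB S R x (r + dd S 1 w)).ncard := by
  have e1 : ((fun z => w * z) '' (AB S R a r)).ncard = (AB S R a r).ncard :=
    Set.ncard_image_of_injective _ (mul_right_injective w)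
  have e2 : ((fun z => w * z) '' (AB S R b r)).ncard = (AB S R b r).ncard :=
    Set.ncard_image_of_injective _ (mul_right_injective w)
  have hd : Disjoint ((fun z => w * z) '' (AB S R a r)) ((fun z => w * z) '' (AB S R b r)) := by
    rw [Set.disjoint_left]
    rintro _ ⟨z, hz, rfl⟩ ⟨z', hz', he⟩
    have he' : z' = z := mul_right_injective w he
    subst he'
    exact hab (h.rtrans _ _ _ _ hz.1 (h.rsymm _ _ _ hz'.1))
  rw [← e1, ← e2, ← Set.ncard_union_eq hd ((AB_fin h a r).image _) ((AB_fin h b r).image _)]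
  refine Set.ncard_le_ncard ?_ (AB_fin h x _)
  rintro _ (⟨z, hz, rfl⟩ | ⟨z, hz, rfl⟩)
  · refine ⟨key h hxw hw ha hz.1, ?_⟩
    have := len_mul h w z
    have := hz.2
    show dd S 1 (w * z) ≤ _
    omega
  · refine ⟨key h hxw hw hb hz.1, ?_⟩
    have := len_mul h w z
    have := hz.2
    show dd S 1 (w * z) ≤ _
    omega

theorem growth3 (h : WM S) {c : Fin 3 → Γ} (hinf : ∀ i, InfC S R (c i))
    (hc : ∀ i j, i ≠ j → ¬ Reach (Cay S) (Kb S R 1) (c i) (c j)) :
    ∃ r0 W : ℕ, ∀ n : ℕ, ∀ i, 2 ^ n ≤ (AB S R (c i) (r0 + n * W)).ncard := by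
  choose w hw hw2 using fun i => exists_far h (hinf i) (2 * R)
  refine ⟨∑ i, dd S 1 (c i), ∑ i, dd S 1 (w i), ?_⟩
  intro n
  induction n with
  | zero =>
    intro i
    rw [pow_zero, Nat.one_le_iff_ne_zero]
    apply Set.ncard_ne_zero_of_mem (a := c i) _ (AB_fin h _ _)
    refine ⟨h.rrefl _ _ (h.rleft _ _ _ (hw i)), ?_⟩
    have := Finset.single_le_sum (f := fun i => dd S 1 (c i)) (fun i _ => Nat.zero_le _)
      (Finset.mem_univ i)
    omega
  | succ n ih =>
    intro i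
    obtain ⟨j, k, hjk, hj, hk⟩ := two_good h hc (w i)
    have h1 := doubling h (hw i) (hw2 i) (hc j k hjk) hj hk
      (∑ i, dd S 1 (c i) + n * ∑ i, dd S 1 (w i))
    have h2 := ih j
    have h3 := ih k
    have h4 : dd S 1 (w i) ≤ ∑ i, dd S 1 (w i) :=
      Finset.single_le_sum (f := fun i => dd S 1 (w i)) (fun i _ => Nat.zero_le _)
        (Finset.mem_univ i)
    have h5 : (AB S R (c i) (∑ i, dd S 1 (c i) + n * ∑ i, dd S 1 (w i) + dd S 1 (w i))).ncard ≤
        (AB S R (c i) (∑ i, dd S 1 (c i) + (n + 1) * ∑ i, dd S 1 (w i))).ncard := by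
      refine Set.ncard_le_ncard (AB_mono _ ?_) (AB_fin h _ _)
      rw [add_mul, one_mul]
      omega
    rw [pow_succ]
    omega

theorem growth (h : WM S) (hT : Three S R) {x : Γ} (hx : InfC S R x) :
    ∃ r0 W : ℕ, ∀ n : ℕ, 2 ^ n ≤ (AB S R x (r0 + n * W)).ncard := by
  obtain ⟨c, hinf, hc⟩ := hT
  obtain ⟨r0, W, hg⟩ := growth3 h hinf hc
  obtain ⟨w, hw, hw2⟩ := exists_far h hx (2 * R)
  obtain ⟨j, k, hjk, hj, hk⟩ := two_good h hc w
  refine ⟨r0 + dd S 1 w, W, fun n => ?_⟩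
  have h1 := doubling h hw hw2 (hc j k hjk) hj hk (r0 + n * W)
  have h2 := hg n j
  have h3 : r0 + dd S 1 w + n * W = r0 + n * W + dd S 1 w := by omega
  rw [h3]
  omega

theorem linear (h : WM S) {x : Γ} {M : ℕ}
    (hM : ∀ T, M ≤ T → Set.ncard {y | Reach (Cay S) (Kb S R 1) x y ∧ dd S 1 y = T} ≤ M) (s : ℕ) :
    (AB S R x (M + s)).ncard ≤ bc S M + M * s := by
  induction s with
  | zero =>
    have h1 : (AB S R x (M + 0)).ncard ≤ (Bn S M).ncard :=
      Set.ncard_le_ncard (fun y hy => hy.2) (h.fin 1 M)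
    rw [mul_zero, add_zero]
    exact h1
  | succ s ih =>
    have h1 : AB S R x (M + (s + 1)) ⊆ AB S R x (M + s) ∪
        {y | Reach (Cay S) (Kb S R 1) x y ∧ dd S 1 y = M + (s + 1)} := by
      intro y hy
      rcases Nat.lt_or_ge (dd S 1 y) (M + (s + 1)) with h1 | h1
      · exact Or.inl ⟨hy.1, by omega⟩
      · exact Or.inr ⟨hy.1, le_antisymm hy.2 h1⟩
    have hfin : (AB S R x (M + s) ∪
        {y | Reach (Cay S) (Kb S R 1) x y ∧ dd S 1 y = M + (s + 1)}).Finite :=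
      (AB_fin h x _).union ((h.fin 1 (M + (s + 1))).subset fun y hy => le_of_eq hy.2)
    have h2 := Set.ncard_le_ncard h1 hfin
    have h3 := Set.ncard_union_le (AB S R x (M + s))
        {y | Reach (Cay S) (Kb S R 1) x y ∧ dd S 1 y = M + (s + 1)}
    have h4 := hM (M + (s + 1)) (by omega)
    have h5 : M * (s + 1) = M * s + M := by ring
    omega

theorem exp_lin (a b : ℕ) : ∃ n : ℕ, a + b * n < 2 ^ n := by
  set m := a + 2 * b + 1 with hm
  refine ⟨2 * m, ?_⟩
  have h1 : m < 2 ^ m := Nat.lt_two_pow_self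
  have h2 : 2 ^ (2 * m) = 2 ^ m * 2 ^ m := by rw [two_mul, pow_add]
  rw [h2]
  have h3 : m * m < 2 ^ m * 2 ^ m := Nat.mul_lt_mul'' h1 h1
  have h4 : a + b * (2 * m) ≤ m * m := by
    have h5 : m * m = a * m + 2 * b * m + m := by
      conv_lhs => rw [hm]
      rw [← hm]
      ring
    have h6 : a ≤ a * m := Nat.le_mul_of_pos_right a (by omega)
    have h7 : b * (2 * m) = 2 * b * m := by ring
    omega
  omega

theorem t_EXP : S_EXP.{u} := by
  intro Γ _ S R h _ hT x hx M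
  by_contra hc
  push Not at hc
  obtain ⟨r0, W, hg⟩ := growth h hT hx
  have hl := linear (R := R) h (x := x) (M := M) (fun T hT => (hc T hT).le)
  obtain ⟨n, hn⟩ := exp_lin (bc S M + M * r0) (M * W)
  have h1 := hg n
  have h2 : (AB S R x (r0 + n * W)).ncard ≤ (AB S R x (M + (r0 + n * W))).ncard :=
    Set.ncard_le_ncard (AB_mono _ (by omega)) (AB_fin h _ _)
  have h3 := hl (r0 + n * W)
  have h4 : M * (r0 + n * W) = M * r0 + M * W * n := by ring
  omega

end EXPx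

end Pool.Agent.R667.PE
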