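import Pool.Agent.R667.PE.Stm

/-! Piece FC of project PE (MP_ac3f41_pr): many disjoint small cuts at most points. -/

set_option autoImplicit false

open MeasureTheory Filter Topology

namespace Pool.Agent.R667.PE.FCx

universe u

variable {Γ : Type u} [Group Γ] {S : Finset Γ}

theorem fin_Bn (hW : WM S) (n : ℕ) : (Bn S n).Finite := hW.fin 1 n

theorem adj_one (hW : WM S) {n : ℕ} {a b : Bn S n} (h : (ballG S n).Adj a b) :
    dd S (a : Γ) (b : Γ) = 1 :=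
  (hW.adj _ _).1 h

/-- The boundary of a set whose outer boundary is in the ball around `g` is small. -/
theorem bd_small (hW : WM S) (R n : ℕ) (g : Γ) (A : Finset (Bn S n))
    (hA : ∀ a ∈ A, ∀ b, b ∉ A → (ballG S n).Adj a b → dd S g b ≤ R) :
    (bd (ballG S n) (A : Set (Bn S n))).Finite ∧
      (bd (ballG S n) (A : Set (Bn S n))).ncard ≤ bc S R * bc S 1 := by
  have : Finite (Bn S n) := (fin_Bn hW n)
  set P : Set (Γ × Γ) := {b : Γ | dd S g b ≤ R} ×ˢ {h : Γ | dd S 1 h ≤ 1} with hP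
  have hPfin : P.Finite := (hW.fin g R).prod (hW.fin 1 1)
  have hPcard : P.ncard = bc S R * bc S 1 := by
    rw [hP, Set.ncard_prod, hW.card, hW.card]
  set f : Γ × Γ → Sym2 Γ := fun p => s(p.1 * p.2, p.1) with hf
  have hsub : Sym2.map Subtype.val '' (bd (ballG S n) (A : Set (Bn S n))) ⊆ f '' P := by
    rintro _ ⟨e, ⟨a, ha, b, hb, hab, rfl⟩, rfl⟩
    refine ⟨((b : Γ), (b : Γ)⁻¹ * (a : Γ)), ⟨?_, ?_⟩, ?_⟩
    · exact hA a ha b hb hab
    · have h1 : dd S (a : Γ) (b : Γ) = 1 := adj_one hW hab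
      have h2 : dd S ((b : Γ) * 1) ((b : Γ) * ((b : Γ)⁻¹ * (a : Γ))) =
        dd S 1 ((b : Γ)⁻¹ * (a : Γ)) := hW.inv _ _ _
      show dd S 1 ((b : Γ)⁻¹ * (a : Γ)) ≤ 1
      rw [← h2, mul_one, mul_inv_cancel_left, hW.symm, h1]
    · simp [hf, Sym2.map_mk]
  have hfin : (bd (ballG S n) (A : Set (Bn S n))).Finite := by
    have : Finite (Sym2 (Bn S n)) := Quot.finite _
    exact Set.toFinite _
  refine ⟨hfin, ?_⟩
  have hinj : Function.Injective (Sym2.map (Subtype.val : Bn S n → Γ)) :=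
    Sym2.map.injective Subtype.val_injective
  calc (bd (ballG S n) (A : Set (Bn S n))).ncard
      = (Sym2.map Subtype.val '' (bd (ballG S n) (A : Set (Bn S n)))).ncard :=
        (Set.ncard_image_of_injective _ hinj).symm
    _ ≤ (f '' P).ncard := Set.ncard_le_ncard hsub (hPfin.image f)
    _ ≤ P.ncard := Set.ncard_image_le hPfin
    _ = bc S R * bc S 1 := hPcard

/-- Far centres give disjoint boundaries. -/
theorem bd_disj (hW : WM S) (R n : ℕ) (g g' : Γ) (A A' : Finset (Bn S n))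
    (hA : ∀ a ∈ A, ∀ b, b ∉ A → (ballG S n).Adj a b → dd S g b ≤ R)
    (hA' : ∀ a ∈ A', ∀ b, b ∉ A' → (ballG S n).Adj a b → dd S g' b ≤ R)
    (hg : 2 * R + 1 < dd S g g') :
    Disjoint (bd (ballG S n) (A : Set (Bn S n))) (bd (ballG S n) (A' : Set (Bn S n))) := by
  rw [Set.disjoint_left]
  rintro e ⟨a, ha, b, hb, hab, rfl⟩ ⟨a', ha', b', hb', hab', he⟩
  have h1 : dd S g b ≤ R := hA a ha b hb hab
  have h2 : dd S g' b' ≤ R := hA' a' ha' b' hb' hab'
  have h3 : dd S (b : Γ) (b' : Γ) ≤ 1 := by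
    rcases Sym2.eq_iff.1 he with ⟨-, hbb⟩ | ⟨hab2, -⟩
    · rw [hbb, hW.self]; exact Nat.zero_le _
    · rw [← hab2, hW.symm]; exact (adj_one hW hab).le
  have h4 := hW.tri g (b : Γ) g'
  have h5 := hW.tri (b : Γ) (b' : Γ) g'
  have h6 := hW.symm (b' : Γ) g'
  omega

theorem t_FC : S_FC.{u} := by
  intro Γ _ S R hW hAs hC
  refine ⟨bc S R * bc S 1, fun k ε hε => ?_⟩
  obtain ⟨t, L1, n0, h0⟩ := hC k ε hε
  refine ⟨bc S (t + L1 + 2 * R), n0, fun n hn => ?_⟩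
  refine le_trans ?_ (h0 n hn)
  rw [Nat.cast_le]
  set B : Set Γ := {x : Γ | dd S 1 x ≤ n ∧ ¬ (n ≤ dd S 1 x + t ∧ ∃ g : Fin k → Γ,
      (∀ i, Sep S R (g i) x 1 ∧ dd S (g i) x ≤ L1) ∧
        ∀ i j, i ≠ j → 2 * R + 1 < dd S (g i) (g j))} with hB
  have hBfin : B.Finite := (hW.fin 1 n).subset fun x hx => hx.1
  rw [← Set.ncard_image_of_injective _ (Subtype.val_injective (p := fun x => x ∈ Bn S n))]
  refine Set.ncard_le_ncard ?_ hBfin
  rintro _ ⟨x, hx, rfl⟩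
  refine ⟨x.2, fun hgood => hx ?_⟩
  obtain ⟨ht, g, hg, hgg⟩ := hgood
  choose A hxA hdist hbd using fun i => hAs.2 t L1 n x (g i) ht (hg i).2 (hg i).1
  exact ⟨A, hxA, hdist, fun i => bd_small hW R n (g i) (A i) (hbd i),
    fun i j hij => bd_disj hW R n (g i) (g j) (A i) (A j) (hbd i) (hbd j) (hgg i j hij)⟩

end Pool.Agent.R667.PE.FCx
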