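import Pool.Agent.R667.PE.Stm

/-! Percolation on ball limits (MP_ac3f41_pr): assembly from the pieces. -/

set_option autoImplicit false

open MeasureTheory Filter Topology

namespace Pool.Agent.R667.PE

universe u v w

lemma pc_eq_one {V : Type w} (X : SimpleGraph V)
    (h0 : ∀ p : ℝ, 0 ≤ p → p < 1 → perc V p {η | InfCluster X η} = 0)
    (h1 : 0 < perc V 1 {η | InfCluster X η}) : pc X = 1 := by
  have : {p : ℝ | p ∈ Set.Icc (0 : ℝ) 1 ∧ 0 < perc V p {η | InfCluster X η}} = {1} := by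
    ext p
    simp only [Set.mem_ofPred_eq, Set.mem_singleton_iff, Set.mem_Icc]
    constructor
    · rintro ⟨⟨ha, hb⟩, hc⟩
      by_contra hne
      have := h0 p ha (lt_of_le_of_ne hb hne)
      rw [this] at hc
      exact lt_irrefl _ hc
    · rintro rfl
      exact ⟨⟨zero_le_one, le_refl _⟩, h1⟩
  unfold pc
  rw [this]
  exact csInf_singleton 1

theorem final (hBASE : S_BASE.{u}) (hT0 : S_T0.{u}) (hEXP : S_EXP.{u}) (hV : S_V.{u})
    (hBUSH : S_BUSH.{u}) (hGROW : S_GROW.{u}) (hMAINQ : S_MAINQ.{u}) (hCT : S_CT.{u})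
    (hPAR : S_PAR.{u}) (hSTAGE : S_STAGE.{u}) (hCNT : S_CNT.{u}) (hAS : S_AS.{u})
    (hFC : S_FC.{u}) (hISO : S_ISO.{u, w}) (hPB : S_PB.{w}) (hLL : S_LL.{u, v, w}) (hINF : S_INF.{u, v, w}) (hPERC : S_PERC.{w})
    (hPC1 : S_PC1.{w}) (Γ : Type u) [Group Γ] (S : Finset Γ) (hS : GenSet S)
    (hE : ManyEnds (Cay S)) (Ω : Type v) [MeasurableSpace Ω] (P : Measure Ω) (V : Ω → Type w)
    (H : ∀ ω, SimpleGraph (V ω)) (ρ : ∀ ω, V ω) (hH : IsBallLimit S P V H ρ) :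
    ∀ᵐ ω ∂P, pc (H ω) = 1 := by
  have W := hBASE Γ S hS
  obtain ⟨hinf, R, hR, hT⟩ := hT0 Γ S W hE
  have hX := hEXP Γ S R W hR hT
  have hVC := hV Γ S R W hR hT hX
  have hB := hBUSH Γ S R W hR hinf hVC
  have hG := hGROW Γ S R W hR hT hX
  have hM := hMAINQ Γ S R W hR hB
  have hC := hCT Γ S R W
  obtain ⟨par, hpar⟩ := hPAR Γ S W
  have hSt := hSTAGE Γ S R par W hR hM hpar
  have hCn := hCNT Γ S R par W hR hpar hSt hG hC
  have hA := hAS Γ S R W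
  have hF := hFC Γ S R W hA hCn
  obtain ⟨M, h1⟩ := hLL hISO Γ S Ω P V H ρ W hH hF hA.1
  have h2 := hINF Γ S Ω P V H ρ W hH hinf hA.1
  filter_upwards [h1, h2] with ω a1 a2
  exact pc_eq_one (H ω) (hPERC hPB (V ω) (H ω) (ρ ω) M (hH.conn ω) (hH.locfin ω) a1)
    (hPC1 (V ω) (H ω) (hH.conn ω) (hH.locfin ω) a2)

end Pool.Agent.R667.PE
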