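import Pool.Agent.R667.PE.Stm

/-! Piece GROW of project PE (MP_ac3f41_pr): balls grow by any factor in bounded time. -/

set_option autoImplicit false

namespace Pool.Agent.R667.PE.GROWx

open Pool.Agent.R667.PE

universe u

variable {Γ : Type u} [Group Γ] {S : Finset Γ} {R : ℕ}

lemma mult_aux (W : WM S) (z : Γ) (T : ℕ) :
    Set.ncard {y : Γ | dd S y z = T ∧ Sep S R y z 1} ≤ bc S (4 * R) := by
  rcases Set.eq_empty_or_nonempty {y : Γ | dd S y z = T ∧ Sep S R y z 1} with h | ⟨y0, hy0⟩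
  · rw [h]; simp
  · obtain ⟨Gd, _, h2, h3⟩ := W.path z 1
    have key : ∀ y, Sep S R y z 1 → ∃ p ∈ Gd, dd S y p ≤ R := by
      intro y hs
      by_contra hcon
      push Not at hcon
      exact hs.2.2 (h3 _ (fun p hp hpk => absurd hpk (not_le.mpr (hcon p hp))))
    obtain ⟨p0, hp0, hp0'⟩ := key y0 hy0.2
    rw [← W.card y0 (4 * R)]
    refine Set.ncard_le_ncard ?_ (W.fin y0 (4 * R))
    rintro y ⟨hyT, hyS⟩
    obtain ⟨p, hp, hp'⟩ := key y hyS
    have hT0 : dd S y0 z = T := hy0.1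
    have a1 : dd S z p ≤ dd S z y + dd S y p := W.tri z y p
    have a2 : dd S y z ≤ dd S y p + dd S p z := W.tri y p z
    have a3 : dd S z p0 ≤ dd S z y0 + dd S y0 p0 := W.tri z y0 p0
    have a4 : dd S y0 z ≤ dd S y0 p0 + dd S p0 z := W.tri y0 p0 z
    have s1 : dd S z y = dd S y z := W.symm z y
    have s2 : dd S p z = dd S z p := W.symm p z
    have s3 : dd S z y0 = dd S y0 z := W.symm z y0
    have s4 : dd S p0 z = dd S z p0 := W.symm p0 z
    have hpp : dd S p0 p ≤ 2 * R := by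
      rcases le_total (dd S z p0) (dd S z p) with hle | hle
      · have := h2 p0 hp0 p hp hle
        omega
      · have := h2 p hp p0 hp0 hle
        have s5 : dd S p p0 = dd S p0 p := W.symm p p0
        omega
    have b1 : dd S y0 y ≤ dd S y0 p0 + dd S p0 y := W.tri y0 p0 y
    have b2 : dd S p0 y ≤ dd S p0 p + dd S p y := W.tri p0 p y
    have s6 : dd S p y = dd S y p := W.symm p y
    show dd S y0 y ≤ 4 * R
    omega

/-- the translate of a piece of a sphere -/
lemma card_translate (W : WM S) (x y : Γ) (T M : ℕ)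
    (hM : M ≤ Set.ncard {z | Reach (Cay S) (Kb S R 1) x z ∧ dd S 1 z = T}) :
    M ≤ Set.ncard {z | Reach (Cay S) (Kb S R y) (y * x) z ∧ dd S y z = T} := by
  have e : {z | Reach (Cay S) (Kb S R y) (y * x) z ∧ dd S y z = T} =
      (fun z => y * z) '' {z | Reach (Cay S) (Kb S R 1) x z ∧ dd S 1 z = T} := by
    ext z
    constructor
    · rintro ⟨h1, h2⟩
      refine ⟨y⁻¹ * z, ⟨?_, ?_⟩, by simp⟩
      · have := (W.rinv R y 1 x (y⁻¹ * z)).mp
        rw [mul_one, mul_inv_cancel_left] at this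
        exact this h1
      · have := W.inv y 1 (y⁻¹ * z)
        rw [mul_one, mul_inv_cancel_left] at this
        rw [← this]; exact h2
    · rintro ⟨w, ⟨h1, h2⟩, rfl⟩
      refine ⟨?_, ?_⟩
      · have := (W.rinv R y 1 x w).mpr h1
        rw [mul_one] at this
        exact this
      · have := W.inv y 1 w
        rw [mul_one] at this
        show dd S y (y * w) = T
        rw [this]; exact h2
  rw [e, Set.ncard_image_of_injective _ (mul_right_injective y)]
  exact hM

theorem grow (W : WM S) (hTh : Three S R) (hE : ExpC S R) : GrowC S := by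
  classical
  obtain ⟨x, hinf, hdis⟩ := hTh
  intro E
  set B4 := bc S (4 * R) with hB4
  obtain ⟨T0, _, hc0⟩ := hE (x 0) (hinf 0) (4 * E * B4)
  obtain ⟨T1, _, hc1⟩ := hE (x 1) (hinf 1) (4 * E * B4)
  -- balls are unbounded
  obtain ⟨m0, hm0⟩ : ∃ m0, 2 * bc S R ≤ bc S m0 := by
    obtain ⟨T, _, hT⟩ := hE (x 0) (hinf 0) (2 * bc S R)
    refine ⟨T, hT.trans ?_⟩
    unfold bc
    refine Set.ncard_le_ncard ?_ (W.fin 1 T)
    rintro y ⟨_, hy⟩
    exact hy.le
  refine ⟨T0 + T1, m0, fun m hm => ?_⟩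
  -- the two finite sets
  have hYfin : {y : Γ | R < dd S 1 y ∧ dd S 1 y ≤ m}.Finite :=
    (W.fin 1 m).subset fun y hy => hy.2
  have hZfin : {z : Γ | dd S 1 z ≤ m + (T0 + T1)}.Finite := W.fin 1 _
  let r : Γ → Γ → Prop := fun y z => (dd S y z = T0 ∨ dd S y z = T1) ∧ Sep S R y z 1
  have hlow : ∀ y ∈ hYfin.toFinset, 4 * E * B4 ≤ (hZfin.toFinset.bipartiteAbove r y).card := by
    intro y hy
    rw [Set.Finite.mem_toFinset] at hy
    obtain ⟨hyR, hym⟩ := hy
    have h1K : (1 : Γ) ∉ Kb S R y := by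
      intro h
      have h' : dd S y 1 ≤ R := h
      rw [W.symm y 1] at h'
      exact absurd h' (not_le.mpr hyR)
    -- general claim for an index
    have claim : ∀ (w : Γ) (T : ℕ), (T = T0 ∨ T = T1) →
        ¬ Reach (Cay S) (Kb S R y) (y * w) 1 →
        4 * E * B4 ≤ Set.ncard {z | Reach (Cay S) (Kb S R 1) w z ∧ dd S 1 z = T} →
        4 * E * B4 ≤ (hZfin.toFinset.bipartiteAbove r y).card := by
      intro w T hT hn hc
      have h2 := card_translate (R := R) W w y T _ hc
      rw [← Set.ncard_coe_finset]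
      refine h2.trans (Set.ncard_le_ncard ?_ (Finset.finite_toSet _))
      rintro z ⟨hz1, hz2⟩
      rw [Finset.mem_coe, Finset.mem_bipartiteAbove, Set.Finite.mem_toFinset]
      refine ⟨?_, ?_, W.rright _ _ _ hz1, h1K, ?_⟩
      · have := W.tri 1 y z
        show dd S 1 z ≤ m + (T0 + T1)
        rcases hT with hT | hT <;> omega
      · rcases hT with hT | hT
        · exact Or.inl (hz2.trans hT)
        · exact Or.inr (hz2.trans hT)
      · intro hz
        exact hn (W.rtrans _ _ _ _ hz1 hz)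
    by_cases h0 : Reach (Cay S) (Kb S R y) (y * x 0) 1
    · have h1 : ¬ Reach (Cay S) (Kb S R y) (y * x 1) 1 := by
        intro h1
        have h01 := W.rtrans _ _ _ _ h0 (W.rsymm _ _ _ h1)
        have := (W.rinv R y 1 (x 0) (x 1)).mp (by rw [mul_one]; exact h01)
        exact hdis 0 1 (by decide) this
      exact claim (x 1) T1 (Or.inr rfl) h1 hc1
    · exact claim (x 0) T0 (Or.inl rfl) h0 hc0
  have hup : ∀ z ∈ hZfin.toFinset, (hYfin.toFinset.bipartiteBelow r z).card ≤ 2 * B4 := by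
    intro z _
    have hf : ∀ T, {y : Γ | dd S y z = T ∧ Sep S R y z 1}.Finite := by
      intro T
      refine (W.fin z T).subset ?_
      rintro y ⟨hy, _⟩
      show dd S z y ≤ T
      rw [W.symm z y]; exact hy.le
    rw [← Set.ncard_coe_finset]
    have hsub : (((hYfin.toFinset.bipartiteBelow r z : Finset Γ)) : Set Γ) ⊆
        {y : Γ | dd S y z = T0 ∧ Sep S R y z 1} ∪ {y : Γ | dd S y z = T1 ∧ Sep S R y z 1} := by
      intro y hy
      rw [Finset.mem_coe, Finset.mem_bipartiteBelow] at hy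
      rcases hy.2.1 with h | h
      · exact Or.inl ⟨h, hy.2.2⟩
      · exact Or.inr ⟨h, hy.2.2⟩
    have h1 := Set.ncard_le_ncard hsub ((hf T0).union (hf T1))
    have h2 := Set.ncard_union_le {y : Γ | dd S y z = T0 ∧ Sep S R y z 1}
      {y : Γ | dd S y z = T1 ∧ Sep S R y z 1}
    have h3 := mult_aux (R := R) W z T0
    have h4 := mult_aux (R := R) W z T1
    omega
  have hdc := Finset.card_mul_le_card_mul r hlow hup
  have hZc : hZfin.toFinset.card = bc S (m + (T0 + T1)) := by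
    rw [← Set.ncard_eq_toFinset_card _ hZfin]; rfl
  have hYc : bc S m ≤ hYfin.toFinset.card + bc S R := by
    rw [← Set.ncard_eq_toFinset_card _ hYfin]
    have hsub : {z : Γ | dd S 1 z ≤ m} ⊆
        {y : Γ | R < dd S 1 y ∧ dd S 1 y ≤ m} ∪ {z : Γ | dd S 1 z ≤ R} := by
      intro z hz
      rcases lt_or_ge R (dd S 1 z) with h | h
      · exact Or.inl ⟨h, hz⟩
      · exact Or.inr h
    have h1 := Set.ncard_le_ncard hsub (hYfin.union (W.fin 1 R))
    have h2 := Set.ncard_union_le {y : Γ | R < dd S 1 y ∧ dd S 1 y ≤ m} {z : Γ | dd S 1 z ≤ R}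
    exact h1.trans h2
  have hmm : 2 * bc S R ≤ bc S m := hm0.trans (W.mono _ _ hm)
  rw [hZc] at hdc
  have hB : 1 ≤ B4 := W.pos _
  have hY2 : bc S m ≤ 2 * hYfin.toFinset.card := by omega
  set c := hYfin.toFinset.card
  have h5 : 2 * (B4 * (E * bc S m)) ≤ 2 * (B4 * bc S (m + (T0 + T1))) := by
    calc 2 * (B4 * (E * bc S m)) = 2 * (E * B4) * bc S m := by ring
      _ ≤ 2 * (E * B4) * (2 * c) := Nat.mul_le_mul_left _ hY2
      _ = c * (4 * E * B4) := by ring
      _ ≤ bc S (m + (T0 + T1)) * (2 * B4) := hdc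
      _ = 2 * (B4 * bc S (m + (T0 + T1))) := by ring
  have h6 : B4 * (E * bc S m) ≤ B4 * bc S (m + (T0 + T1)) := by omega
  exact Nat.le_of_mul_le_mul_left h6 hB

end Pool.Agent.R667.PE.GROWx

namespace Pool.Agent.R667.PE

universe u

theorem t_GROW : S_GROW.{u} := fun _ _ _ _ W _ hT hE => GROWx.grow W hT hE

end Pool.Agent.R667.PE

namespace Pool.Agent.R667.PE.GROWx

universe u

theorem t_GROW : S_GROW.{u} := Pool.Agent.R667.PE.t_GROW

end Pool.Agent.R667.PE.GROWx
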