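import Pool.Agent.R667.PE.Stm

/-! Piece INF of project PE (MP_ac3f41_pr): the limit is almost surely infinite. -/

set_option autoImplicit false

open MeasureTheory Filter Topology

namespace Pool.Agent.R667.PE.INFx

universe u v w

lemma step {V : Type u} {X : SimpleGraph V} (hX : X.Connected) (x y : V) (d : ℕ)
    (h : X.dist x y = d + 1) : ∃ z, X.dist x z = d := by
  obtain ⟨p, hp⟩ := hX.exists_walk_length_eq_dist y x
  rw [SimpleGraph.dist_comm, h] at hp
  cases p with
  | nil => simp at hp
  | @cons _ z _ ha q =>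
    rw [SimpleGraph.Walk.length_cons] at hp
    refine ⟨z, ?_⟩
    have h1 : X.dist z x ≤ d := by
      have := SimpleGraph.dist_le q
      omega
    have h2 : X.dist x y ≤ X.dist x z + X.dist z y := hX.dist_triangle
    have h3 : X.dist z y ≤ 1 := by
      have := SimpleGraph.dist_le (SimpleGraph.Walk.cons ha.symm SimpleGraph.Walk.nil)
      simpa using this
    rw [SimpleGraph.dist_comm] at h1
    omega

lemma down {V : Type u} {X : SimpleGraph V} (hX : X.Connected) (x : V) (d : ℕ) :
    ∀ y, X.dist x y = d → ∀ i ≤ d, ∃ z, X.dist x z = i := by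
  induction d with
  | zero =>
    intro y hy i hi
    exact ⟨y, by omega⟩
  | succ d ih =>
    intro y hy i hi
    rcases Nat.lt_or_ge i (d + 1) with h | h
    · obtain ⟨z, hz⟩ := step hX x y d hy
      exact ih z hz i (by omega)
    · exact ⟨y, by omega⟩

/-- a ball of radius `m` with `m` vertices is the whole graph -/
lemma whole {V : Type u} {X : SimpleGraph V} (hX : X.Connected) (x : V) (m : ℕ)
    (F : SimpleGraph (Fin m)) (φ : Fin m) (h : BallIso X x m F φ) : Nat.card V = m := by
  obtain ⟨e, -⟩ := h
  have hlt : ∀ y, X.dist x y < m := by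
    intro y
    by_contra hy
    push Not at hy
    have hz : ∀ i : Fin (m + 1), ∃ z, X.dist x z = i := fun i =>
      down hX x (X.dist x y) y rfl i (by have := i.2; omega)
    choose z hz using hz
    let g : Fin (m + 1) → Fin m := fun i => e.symm ⟨z i, by
      have := i.2
      show X.dist x (z i) ≤ m
      rw [hz i]; omega⟩
    have hg : Function.Injective g := by
      intro i j hij
      have h1 := e.symm.injective hij
      have h2 : z i = z j := congrArg Subtype.val h1
      have h3 := hz i
      rw [h2, hz j] at h3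
      exact Fin.ext h3.symm
    have := Fintype.card_le_of_injective g hg
    simp at this
  let e2 : Fin m ≃ V :=
    { toFun := fun i => (e i : V)
      invFun := fun y => e.symm ⟨y, (hlt y).le⟩
      left_inv := fun i => by simp
      right_inv := fun y => by simp }
  rw [← Nat.card_congr e2]
  simp

lemma bc_unb {Γ : Type u} [Group Γ] (S : Finset Γ) (hW : WM S) [Infinite Γ] (m : ℕ) :
    ∃ n0, ∀ n, n0 ≤ n → m < bc S n := by
  classical
  obtain ⟨T, hT⟩ := Infinite.exists_subset_card_eq Γ (m + 1)
  refine ⟨T.sup fun g => dd S 1 g, fun n hn => ?_⟩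
  have h1 : (T : Set Γ) ⊆ Bn S n := by
    intro g hg
    exact le_trans (Finset.le_sup (f := fun g => dd S 1 g) (Finset.mem_coe.mp hg)) hn
  have h2 := Set.ncard_le_ncard h1 (hW.fin 1 n)
  rw [Set.ncard_coe_finset, hT] at h2
  unfold bc
  omega

theorem t_INF : S_INF.{u, v, w} := by
  intro Γ _ S Ω _ P V H ρ hW hL hΓ hconn
  haveI := hL.prob
  obtain ⟨n, hn, hlim⟩ := hL.lim
  have hzero : ∀ (m : ℕ) (F : SimpleGraph (Fin m)) (φ : Fin m),
      P {ω | BallIso (H ω) (ρ ω) m F φ} = 0 := by
    intro m F φ
    obtain ⟨n0, hn0⟩ := bc_unb S hW m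
    have hev : ∀ᶠ k in atTop, frac S (n k) m F φ = 0 := by
      filter_upwards [hn.tendsto_atTop.eventually_ge_atTop n0] with k hk
      have he : {x : Bn S (n k) | BallIso (ballG S (n k)) x m F φ} = ∅ := by
        rw [Set.eq_empty_iff_forall_notMem]
        intro x hx
        have h1 := whole (hconn (n k)) x m F φ hx
        have h2 := hn0 (n k) hk
        unfold bc at h2
        rw [← Nat.card_coe_set_eq] at h2
        omega
      unfold frac
      rw [he]
      simp
    have h3 := hlim m m F φ
    have h4 : Tendsto (fun k => frac S (n k) m F φ) atTop (𝓝 0) :=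
      tendsto_const_nhds.congr' (hev.mono fun k hk => hk.symm)
    have h5 := tendsto_nhds_unique h3 h4
    rwa [measureReal_eq_zero_iff] at h5
  have hae : ∀ᵐ ω ∂P, ∀ (m : ℕ) (F : SimpleGraph (Fin m)) (φ : Fin m),
      ¬ BallIso (H ω) (ρ ω) m F φ := by
    rw [ae_all_iff]
    intro m
    rw [ae_all_iff]
    intro F
    rw [ae_all_iff]
    intro φ
    rw [ae_iff]
    simp only [not_not]
    exact hzero m F φ
  filter_upwards [hae] with ω hω
  by_contra hfin
  rw [not_infinite_iff_finite] at hfin
  haveI := Fintype.ofFinite (V ω)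
  have hc := hL.conn ω
  have hd : ∀ y, (H ω).dist (ρ ω) y ≤ Nat.card (V ω) := by
    intro y
    obtain ⟨p, hp, hp2⟩ := hc.exists_path_of_dist (ρ ω) y
    have := hp.length_lt
    rw [Nat.card_eq_fintype_card]
    omega
  let e := Finite.equivFin (V ω)
  refine hω (Nat.card (V ω)) ((H ω).comap e.symm) (e (ρ ω)) ⟨?_, ?_⟩
  · exact
      { toFun := fun i => ⟨e.symm i, hd _⟩
        invFun := fun y => e y.1
        left_inv := fun i => by simp
        right_inv := fun y => by simp
        map_rel_iff' := by
          intro a b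
          simp [SimpleGraph.comap_adj] }
  · simp

end Pool.Agent.R667.PE.INFx
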