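import Pool.Agent.R667.PE.Stm

/-! Percolation on ball limits (MP_ac3f41_pr): piece ISO. -/

set_option autoImplicit false

open MeasureTheory Filter Topology

namespace Pool.Agent.R667.PE

universe u v w

namespace ISOx

variable {V : Type u} {W : Type w}

theorem closer (X : SimpleGraph V) (hX : X.Connected) (x v : V) (n : ℕ)
    (h : X.dist x v = n + 1) : ∃ c, X.Adj c v ∧ X.dist x c = n := by
  obtain ⟨p, hp⟩ := (hX v x).exists_walk_length_eq_dist
  rw [SimpleGraph.dist_comm, h] at hp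
  cases p with
  | nil => simp at hp
  | @cons _ c _ hadj q =>
    refine ⟨c, hadj.symm, ?_⟩
    rw [SimpleGraph.Walk.length_cons] at hp
    have h1 : X.dist x c ≤ n := by
      rw [SimpleGraph.dist_comm]
      have := SimpleGraph.dist_le q
      omega
    have h2 : X.dist x v ≤ X.dist x c + X.dist c v := hX.dist_triangle
    have h3 : X.dist c v ≤ 1 := by
      have := SimpleGraph.dist_le (SimpleGraph.Walk.cons hadj.symm SimpleGraph.Walk.nil)
      simpa using this
    omega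

theorem dist_le_of_hom (X : SimpleGraph V) (Y : SimpleGraph W) (x : V) (y : W) (r : ℕ)
    (hX : X.Connected) (hY : Y.Connected) (f : V → W)
    (hf : ∀ a b, X.dist x a ≤ r → X.dist x b ≤ r → X.Adj a b → Y.Adj (f a) (f b))
    (hx : f x = y) : ∀ (n : ℕ) (a : V), n ≤ r → X.dist x a = n → Y.dist y (f a) ≤ n := by
  intro n
  induction n with
  | zero =>
    intro a _ ha
    rw [hX.dist_eq_zero_iff] at ha
    rw [← ha, hx]
    simp
  | succ n ih =>
    intro a hn ha
    obtain ⟨c, hc1, hc2⟩ := closer X hX x a n ha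
    have h1 := ih c (by omega) hc2
    have h2 := hf c a (by omega) (by omega) hc1
    have h3 : Y.dist y (f a) ≤ Y.dist y (f c) + Y.dist (f c) (f a) := hY.dist_triangle
    have h4 : Y.dist (f c) (f a) ≤ 1 := by
      have := SimpleGraph.dist_le (SimpleGraph.Walk.cons h2 SimpleGraph.Walk.nil)
      simpa using this
    omega

/-- two maps which are inverse isomorphisms of rooted balls -/
structure Pr (X : SimpleGraph V) (Y : SimpleGraph W) (x : V) (y : W) (r : ℕ) (f : V → W)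
    (g : W → V) : Prop where
  fx : f x = y
  gy : g y = x
  fB : ∀ a, X.dist x a ≤ r → Y.dist y (f a) ≤ r
  gB : ∀ b, Y.dist y b ≤ r → X.dist x (g b) ≤ r
  gf : ∀ a, X.dist x a ≤ r → g (f a) = a
  fg : ∀ b, Y.dist y b ≤ r → f (g b) = b
  fadj : ∀ a b, X.dist x a ≤ r → X.dist x b ≤ r → X.Adj a b → Y.Adj (f a) (f b)
  gadj : ∀ a b, Y.dist y a ≤ r → Y.dist y b ≤ r → Y.Adj a b → X.Adj (g a) (g b)

theorem exists_pr (X : SimpleGraph V) (Y : SimpleGraph W) (x : V) (y : W) (r m : ℕ)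
    (F : SimpleGraph (Fin m)) (φ : Fin m) (h1 : BallIso X x r F φ) (h2 : BallIso Y y r F φ) :
    ∃ f g, Pr X Y x y r f g := by
  classical
  obtain ⟨e1, he1⟩ := h1
  obtain ⟨e2, he2⟩ := h2
  have hx0 : x ∈ {a | X.dist x a ≤ r} := by simp
  have hy0 : y ∈ {a | Y.dist y a ≤ r} := by simp
  have hx : e1.symm ⟨x, hx0⟩ = φ := by
    rw [RelIso.symm_apply_eq]
    exact Subtype.ext he1.symm
  have hy : e2.symm ⟨y, hy0⟩ = φ := by
    rw [RelIso.symm_apply_eq]
    exact Subtype.ext he2.symm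
  refine ⟨fun a => if h : X.dist x a ≤ r then (e2 (e1.symm ⟨a, h⟩) : W) else y,
    fun b => if h : Y.dist y b ≤ r then (e1 (e2.symm ⟨b, h⟩) : V) else x, ?_⟩
  have hF : ∀ a (h : X.dist x a ≤ r), Y.dist y (e2 (e1.symm ⟨a, h⟩) : W) ≤ r :=
    fun a h => (e2 (e1.symm ⟨a, h⟩)).2
  have hG : ∀ b (h : Y.dist y b ≤ r), X.dist x (e1 (e2.symm ⟨b, h⟩) : V) ≤ r :=
    fun b h => (e1 (e2.symm ⟨b, h⟩)).2
  constructor
  · have h0 : X.dist x x ≤ r := hx0
    simp only [dif_pos h0]
    have : e1.symm ⟨x, h0⟩ = φ := hx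
    rw [this, he2]
  · have h0 : Y.dist y y ≤ r := hy0
    simp only [dif_pos h0]
    have : e2.symm ⟨y, h0⟩ = φ := hy
    rw [this, he1]
  · intro a h
    simp only [dif_pos h]
    exact hF a h
  · intro b h
    simp only [dif_pos h]
    exact hG b h
  · intro a h
    simp only [dif_pos h, dif_pos (hF a h)]
    have : (⟨(e2 (e1.symm ⟨a, h⟩) : W), hF a h⟩ : {b | Y.dist y b ≤ r}) =
        e2 (e1.symm ⟨a, h⟩) := rfl
    rw [this, RelIso.symm_apply_apply, RelIso.apply_symm_apply]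
  · intro b h
    simp only [dif_pos h, dif_pos (hG b h)]
    have : (⟨(e1 (e2.symm ⟨b, h⟩) : V), hG b h⟩ : {a | X.dist x a ≤ r}) =
        e1 (e2.symm ⟨b, h⟩) := rfl
    rw [this, RelIso.symm_apply_apply, RelIso.apply_symm_apply]
  · intro a b ha hb hab
    simp only [dif_pos ha, dif_pos hb]
    have h3 : (X.induce {a | X.dist x a ≤ r}).Adj ⟨a, ha⟩ ⟨b, hb⟩ := hab
    have h4 := e1.symm.map_rel_iff.mpr h3
    have h5 := e2.map_rel_iff.mpr h4
    exact h5
  · intro a b ha hb hab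
    simp only [dif_pos ha, dif_pos hb]
    have h3 : (Y.induce {a | Y.dist y a ≤ r}).Adj ⟨a, ha⟩ ⟨b, hb⟩ := hab
    have h4 := e2.symm.map_rel_iff.mpr h3
    have h5 := e1.map_rel_iff.mpr h4
    exact h5

theorem bd_image [DecidableEq W] (X : SimpleGraph V) (Y : SimpleGraph W) (x : V) (y : W) (L : ℕ)
    (hX : X.Connected) (hY : Y.Connected) (f : V → W) (g : W → V)
    (P : Pr X Y x y (L + 1) f g) (A : Finset V) (hA : ∀ a ∈ A, X.dist x a ≤ L)
    (hA' : ∀ a ∈ A, Y.dist y (f a) ≤ L) :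
    bd Y ((A.image f : Finset W) : Set W) = Sym2.map f '' bd X (A : Set V) := by
  have step : ∀ a b : V, X.dist x a ≤ L → X.Adj a b → X.dist x b ≤ L + 1 := by
    intro a b ha hab
    have h3 : X.dist x b ≤ X.dist x a + X.dist a b := hX.dist_triangle
    have h4 : X.dist a b ≤ 1 := by
      have := SimpleGraph.dist_le (SimpleGraph.Walk.cons hab SimpleGraph.Walk.nil)
      simpa using this
    omega
  have step' : ∀ a b : W, Y.dist y a ≤ L → Y.Adj a b → Y.dist y b ≤ L + 1 := by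
    intro a b ha hab
    have h3 : Y.dist y b ≤ Y.dist y a + Y.dist a b := hY.dist_triangle
    have h4 : Y.dist a b ≤ 1 := by
      have := SimpleGraph.dist_le (SimpleGraph.Walk.cons hab SimpleGraph.Walk.nil)
      simpa using this
    omega
  ext e
  constructor
  · rintro ⟨w, hw, z, hz, hwz, rfl⟩
    rw [Finset.mem_coe, Finset.mem_image] at hw
    obtain ⟨a, ha, rfl⟩ := hw
    have hz1 := step' (f a) z (hA' a ha) hwz
    have hz2 : f (g z) = z := P.fg z hz1
    refine ⟨s(a, g z), ⟨a, ha, g z, ?_, ?_, rfl⟩, ?_⟩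
    · intro hgz
      apply hz
      rw [Finset.mem_coe, Finset.mem_image]
      exact ⟨g z, hgz, hz2⟩
    · have h5 := P.gadj (f a) z (le_trans (hA' a ha) (Nat.le_succ L)) hz1 hwz
      rwa [P.gf a (le_trans (hA a ha) (Nat.le_succ L))] at h5
    · rw [Sym2.map_mk, hz2]
  · rintro ⟨_, ⟨a, ha, b, hb, hab, rfl⟩, rfl⟩
    have ha1 : X.dist x a ≤ L + 1 := le_trans (hA a ha) (Nat.le_succ L)
    have hb1 := step a b (hA a ha) hab
    refine ⟨f a, ?_, f b, ?_, P.fadj a b ha1 hb1 hab, ?_⟩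
    · rw [Finset.mem_coe, Finset.mem_image]
      exact ⟨a, ha, rfl⟩
    · intro hfb
      rw [Finset.mem_coe, Finset.mem_image] at hfb
      obtain ⟨c, hc, hcb⟩ := hfb
      apply hb
      have h6 := congrArg g hcb
      rw [P.gf c (le_trans (hA c hc) (Nat.le_succ L)), P.gf b hb1] at h6
      rw [← h6]
      exact hc
    · rw [Sym2.map_mk]

theorem map_back (X : SimpleGraph V) (Y : SimpleGraph W) (x : V) (y : W) (L : ℕ)
    (hX : X.Connected) (f : V → W) (g : W → V)
    (P : Pr X Y x y (L + 1) f g) (A : Finset V) (hA : ∀ a ∈ A, X.dist x a ≤ L) (e : Sym2 V)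
    (he : e ∈ bd X (A : Set V)) : Sym2.map g (Sym2.map f e) = e := by
  obtain ⟨a, ha, b, _, hab, rfl⟩ := he
  have ha1 : X.dist x a ≤ L + 1 := le_trans (hA a ha) (Nat.le_succ L)
  have hb1 : X.dist x b ≤ L + 1 := by
    have h3 : X.dist x b ≤ X.dist x a + X.dist a b := hX.dist_triangle
    have h4 : X.dist a b ≤ 1 := by
      have := SimpleGraph.dist_le (SimpleGraph.Walk.cons hab SimpleGraph.Walk.nil)
      simpa using this
    have := hA a ha
    omega
  rw [Sym2.map_mk, Sym2.map_mk, P.gf a ha1, P.gf b hb1]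

end ISOx

open ISOx in
/-- PE-ISO. -/
theorem t_ISO : S_ISO.{u, w} := by
  classical
  intro V W X Y x y M k L m F φ hX hY h1 h2 hcut
  obtain ⟨f, g, P⟩ := exists_pr X Y x y (L + 1) m F φ h1 h2
  obtain ⟨A, hA1, hA2, hA3, hA4⟩ := hcut
  have hA' : ∀ i, ∀ a ∈ A i, Y.dist y (f a) ≤ L := by
    intro i a ha
    have h3 := dist_le_of_hom X Y x y (L + 1) hX hY f P.fadj P.fx (X.dist x a) a
      (le_trans (hA2 i a ha) (Nat.le_succ L)) rfl
    exact h3.trans (hA2 i a ha)
  have hbd : ∀ i, bd Y (((A i).image f : Finset W) : Set W) = Sym2.map f '' bd X (A i : Set V) :=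
    fun i => bd_image X Y x y L hX hY f g P (A i) (hA2 i) (hA' i)
  refine ⟨fun i => (A i).image f, ?_, ?_, ?_, ?_⟩
  · intro i
    rw [Finset.mem_image]
    exact ⟨x, hA1 i, P.fx⟩
  · intro i b hb
    rw [Finset.mem_image] at hb
    obtain ⟨a, ha, rfl⟩ := hb
    exact hA' i a ha
  · intro i
    rw [hbd i]
    exact ⟨(hA3 i).1.image _, (Set.ncard_image_le (hA3 i).1).trans (hA3 i).2⟩
  · intro i j hij
    rw [hbd i, hbd j, Set.disjoint_left]
    rintro _ ⟨e, he, rfl⟩ ⟨e', he', hee⟩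
    have h5 := map_back X Y x y L hX f g P (A i) (hA2 i) e he
    have h6 := map_back X Y x y L hX f g P (A j) (hA2 j) e' he'
    rw [hee, h5] at h6
    exact (Set.disjoint_left.mp (hA4 i j hij)) he (h6 ▸ he')

end Pool.Agent.R667.PE
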