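import Pool.Agent.R667.PE.Defs

/-! Percolation on ball limits (MP_ac3f41_pr): statements of the pieces. -/

set_option autoImplicit false

open MeasureTheory Filter Topology

namespace Pool.Agent.R667.PE

universe u v w

/-! conclusions -/

def ExpC {Γ : Type u} [Group Γ] (S : Finset Γ) (R : ℕ) : Prop :=
  ∀ x : Γ, InfC S R x → ∀ M : ℕ, ∃ T, M ≤ T ∧
    M ≤ Set.ncard {y | Reach (Cay S) (Kb S R 1) x y ∧ dd S 1 y = T}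

def VC {Γ : Type u} [Group Γ] (S : Finset Γ) (R : ℕ) : Prop :=
  ∀ c : Γ, ∃ a : Γ, 2 * R < dd S 1 a ∧ ¬ Reach (Cay S) (Kb S R 1) c a ∧
    ¬ Reach (Cay S) (Kb S R 1) c a⁻¹

def BushC {Γ : Type u} [Group Γ] (S : Finset Γ) (R : ℕ) : Prop :=
  ∃ c0 L0 N : ℕ, ∀ y : Γ, R < dd S 1 y → ∀ L, L0 ≤ L → ∃ a, dd S y a ≤ c0 ∧
    bc S L ≤ N * Set.ncard {z | dd S a z ≤ L ∧ Sep S R a z 1}

def GrowC {Γ : Type u} [Group Γ] (S : Finset Γ) : Prop :=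
  ∀ E : ℕ, ∃ T m0 : ℕ, ∀ m, m0 ≤ m → E * bc S m ≤ bc S (m + T)

def MainC {Γ : Type u} [Group Γ] (S : Finset Γ) (R : ℕ) : Prop :=
  ∃ j0 C c1 : ℕ, ∀ n J, J + c1 ≤ n →
    ∑ j ∈ Finset.Icc j0 J, aa S R j * bc S (n - j) ≤ C * bc S n

def CTC {Γ : Type u} [Group Γ] (S : Finset Γ) (R : ℕ) : Prop :=
  ∀ g y x' x : Γ, dd S 1 y + dd S y x' = dd S 1 x' → dd S 1 x' + dd S x' x = dd S 1 x →
    GoodCut S R g x' y → Sep S R g x 1 ∧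
      ∃ p, dd S g p ≤ R ∧ dd S y p + dd S p x' = dd S y x' ∧ 2 * R < dd S y p ∧
        2 * R < dd S p x'

/-- `par` is a choice of parents -/
def Par {Γ : Type u} [Group Γ] (S : Finset Γ) (par : Γ → Γ) : Prop :=
  ∀ (x : Γ) (j : ℕ), j ≤ dd S 1 x →
    dd S 1 (par^[j] x) + j = dd S 1 x ∧ dd S (par^[j] x) x = j

def StageC {Γ : Type u} [Group Γ] (S : Finset Γ) (R : ℕ) (par : Γ → Γ) : Prop :=
  ∀ (q : ℕ) (δ : ℝ), 0 < δ → ∃ J n0 : ℕ, ∀ n, n0 ≤ n → ∃ l, l ≤ J ∧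
    (Set.ncard {x : Γ | dd S 1 x ≤ n ∧ q + J ≤ dd S 1 x ∧
      ¬ ∃ g, GoodCut S R g (par^[q] x) (par^[q + l] x)} : ℝ) ≤ δ * bc S n

def CntC {Γ : Type u} [Group Γ] (S : Finset Γ) (R : ℕ) : Prop :=
  ∀ (k : ℕ) (ε : ℝ), 0 < ε → ∃ t L1 n0 : ℕ, ∀ n, n0 ≤ n →
    (Set.ncard {x : Γ | dd S 1 x ≤ n ∧ ¬ (n ≤ dd S 1 x + t ∧ ∃ g : Fin k → Γ,
      (∀ i, Sep S R (g i) x 1 ∧ dd S (g i) x ≤ L1) ∧
        ∀ i j, i ≠ j → 2 * R + 1 < dd S (g i) (g j))} : ℝ) ≤ ε * bc S n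

def AsC {Γ : Type u} [Group Γ] (S : Finset Γ) (R : ℕ) : Prop :=
  (∀ n, (ballG S n).Connected) ∧
  ∀ (t L1 n : ℕ) (x : Bn S n) (g : Γ), n ≤ dd S 1 (x : Γ) + t → dd S g x ≤ L1 →
    Sep S R g x 1 → ∃ A : Finset (Bn S n), x ∈ A ∧
      (∀ y ∈ A, (ballG S n).dist x y ≤ bc S (t + L1 + 2 * R)) ∧
      ∀ a ∈ A, ∀ b, b ∉ A → (ballG S n).Adj a b → dd S g b ≤ R

def FcC {Γ : Type u} [Group Γ] (S : Finset Γ) : Prop :=
  ∃ M : ℕ, ∀ (k : ℕ) (ε : ℝ), 0 < ε → ∃ L n0 : ℕ, ∀ n, n0 ≤ n →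
    (Set.ncard {x : Bn S n | ¬ Cut (ballG S n) x M k L} : ℝ) ≤ ε * bc S n

/-! pieces -/

def S_BASE : Prop := ∀ (Γ : Type u) [Group Γ] (S : Finset Γ), GenSet S → WM S

def S_T0 : Prop := ∀ (Γ : Type u) [Group Γ] (S : Finset Γ), WM S → ManyEnds (Cay S) →
  Infinite Γ ∧ ∃ R, 1 ≤ R ∧ Three S R

def S_EXP : Prop := ∀ (Γ : Type u) [Group Γ] (S : Finset Γ) (R : ℕ), WM S → 1 ≤ R → Three S R →
  ExpC S R

def S_V : Prop := ∀ (Γ : Type u) [Group Γ] (S : Finset Γ) (R : ℕ), WM S → 1 ≤ R → Three S R →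
  ExpC S R → VC S R

def S_BUSH : Prop := ∀ (Γ : Type u) [Group Γ] (S : Finset Γ) (R : ℕ), WM S → 1 ≤ R →
  Infinite Γ → VC S R → BushC S R

def S_GROW : Prop := ∀ (Γ : Type u) [Group Γ] (S : Finset Γ) (R : ℕ), WM S → 1 ≤ R → Three S R →
  ExpC S R → GrowC S

def S_MAINQ : Prop := ∀ (Γ : Type u) [Group Γ] (S : Finset Γ) (R : ℕ), WM S → 1 ≤ R →
  BushC S R → MainC S R

def S_CT : Prop := ∀ (Γ : Type u) [Group Γ] (S : Finset Γ) (R : ℕ), WM S → CTC S R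

def S_PAR : Prop := ∀ (Γ : Type u) [Group Γ] (S : Finset Γ), WM S → ∃ par : Γ → Γ, Par S par

def S_STAGE : Prop := ∀ (Γ : Type u) [Group Γ] (S : Finset Γ) (R : ℕ) (par : Γ → Γ), WM S →
  1 ≤ R → MainC S R → Par S par → StageC S R par

def S_CNT : Prop := ∀ (Γ : Type u) [Group Γ] (S : Finset Γ) (R : ℕ) (par : Γ → Γ), WM S →
  1 ≤ R → Par S par → StageC S R par → GrowC S → CTC S R → CntC S R

def S_AS : Prop := ∀ (Γ : Type u) [Group Γ] (S : Finset Γ) (R : ℕ), WM S → AsC S R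

def S_FC : Prop := ∀ (Γ : Type u) [Group Γ] (S : Finset Γ) (R : ℕ), WM S → AsC S R →
  CntC S R → FcC S

def S_ISO : Prop := ∀ (V : Type u) (W : Type w) (X : SimpleGraph V) (Y : SimpleGraph W) (x : V)
  (y : W) (M k L m : ℕ) (F : SimpleGraph (Fin m)) (φ : Fin m), X.Connected → Y.Connected →
  BallIso X x (L + 1) F φ → BallIso Y y (L + 1) F φ → Cut X x M k L → Cut Y y M k L

def S_LL : Prop := S_ISO.{u, w} → ∀ (Γ : Type u) [Group Γ] (S : Finset Γ) (Ω : Type v) [MeasurableSpace Ω]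
  (P : Measure Ω) (V : Ω → Type w) (H : ∀ ω, SimpleGraph (V ω)) (ρ : ∀ ω, V ω), WM S →
  IsBallLimit S P V H ρ → FcC S → (∀ n, (ballG S n).Connected) →
  (∃ M, ∀ᵐ ω ∂P, ∀ k, ∃ L, Cut (H ω) (ρ ω) M k L)

def S_INF : Prop := ∀ (Γ : Type u) [Group Γ] (S : Finset Γ) (Ω : Type v) [MeasurableSpace Ω]
  (P : Measure Ω) (V : Ω → Type w) (H : ∀ ω, SimpleGraph (V ω)) (ρ : ∀ ω, V ω), WM S →
  IsBallLimit S P V H ρ → Infinite Γ → (∀ n, (ballG S n).Connected) →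
  ∀ᵐ ω ∂P, Infinite (V ω)

def S_PB : Prop := ∀ (V : Type w) (k M : ℕ) (E : Fin k → Set (Sym2 V)) (p : ℝ), 0 ≤ p → p ≤ 1 →
  (∀ i, (E i).Finite ∧ (E i).ncard ≤ M) → (∀ i j, i ≠ j → Disjoint (E i) (E j)) →
  perc V p {η | ∀ i, ∃ e ∈ E i, η e = true} ≤ ENNReal.ofReal ((1 - (1 - p) ^ M) ^ k)

def S_PERC : Prop := S_PB.{w} → ∀ (V : Type w) (X : SimpleGraph V) (x : V) (M : ℕ), X.Connected →
  (∀ a, (X.neighborSet a).Finite) → (∀ k, ∃ L, Cut X x M k L) → ∀ p : ℝ, 0 ≤ p → p < 1 →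
  perc V p {η | InfCluster X η} = 0

def S_PC1 : Prop := ∀ (V : Type w) (X : SimpleGraph V), X.Connected →
  (∀ a, (X.neighborSet a).Finite) → Infinite V → 0 < perc V 1 {η | InfCluster X η}

end Pool.Agent.R667.PE
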