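import Mathlib
import Pool.Agent.R667.PE.Stm

set_option autoImplicit false

open MeasureTheory Filter Topology

namespace Pool.Agent.R667.PE.LLx

universe u v w

open Pool.Agent.R667.PE

/-- rooted graphs with at most `N` vertices -/
abbrev Ty (N : ℕ) := Σ m : Fin (N + 1), SimpleGraph (Fin (m : ℕ)) × Fin (m : ℕ)

/-- the ball has a given type -/
def BI {V : Type u} {N : ℕ} (X : SimpleGraph V) (x : V) (r : ℕ) (τ : Ty N) : Prop :=
  BallIso X x r τ.2.1 τ.2.2

/-- isomorphism of types -/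
def tySetoid (N : ℕ) : Setoid (Ty N) where
  r τ σ := ∃ g : τ.2.1 ≃g σ.2.1, g τ.2.2 = σ.2.2
  iseqv := by
    refine ⟨fun τ => ⟨SimpleGraph.Iso.refl, rfl⟩, ?_, ?_⟩
    · rintro τ σ ⟨g, hg⟩
      refine ⟨g.symm, ?_⟩
      rw [← hg]
      exact g.symm_apply_apply _
    · rintro τ σ υ ⟨g, hg⟩ ⟨h, hh⟩
      refine ⟨g.trans h, ?_⟩
      show h (g τ.2.2) = υ.2.2
      rw [hg, hh]

/-- the representative of a type -/
noncomputable def rep {N : ℕ} (τ : Ty N) : Ty N := (Quotient.mk (tySetoid N) τ).out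

theorem rep_rel {N : ℕ} (τ : Ty N) : ∃ g : (rep τ).2.1 ≃g τ.2.1, g (rep τ).2.2 = τ.2.2 :=
  Quotient.exact (s := tySetoid N) (Quotient.out_eq (Quotient.mk (tySetoid N) τ))

theorem rep_eq {N : ℕ} {τ σ : Ty N} (h : ∃ g : τ.2.1 ≃g σ.2.1, g τ.2.2 = σ.2.2) :
    rep τ = rep σ := by
  unfold rep
  rw [Quotient.sound (s := tySetoid N) h]

theorem rep_rep {N : ℕ} (τ : Ty N) : rep (rep τ) = rep τ := rep_eq (rep_rel τ)

theorem bi_rep {V : Type u} {N : ℕ} {X : SimpleGraph V} {x : V} {r : ℕ} {τ : Ty N}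
    (h : BI X x r τ) : BI X x r (rep τ) := by
  obtain ⟨e, he⟩ := h
  obtain ⟨g, hg⟩ := rep_rel τ
  refine ⟨g.trans e, ?_⟩
  show ((e (g (rep τ).2.2) : _) : V) = x
  rw [hg]
  exact he

theorem bi_unique {V : Type u} {N : ℕ} {X : SimpleGraph V} {x : V} {r : ℕ} {τ σ : Ty N}
    (h : BI X x r τ) (h' : BI X x r σ) : ∃ g : τ.2.1 ≃g σ.2.1, g τ.2.2 = σ.2.2 := by
  obtain ⟨e, he⟩ := h
  obtain ⟨f, hf⟩ := h'
  refine ⟨e.trans f.symm, ?_⟩
  show f.symm (e τ.2.2) = σ.2.2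
  have : e τ.2.2 = f σ.2.2 := Subtype.ext (he.trans hf.symm)
  rw [this]
  exact f.symm_apply_apply _

theorem exists_type {V : Type u} (X : SimpleGraph V) (x : V) (r N : ℕ)
    (hf : {y | X.dist x y ≤ r}.Finite) (hN : {y | X.dist x y ≤ r}.ncard ≤ N) :
    ∃ τ : Ty N, BI X x r τ := by
  set A : Set V := {y | X.dist x y ≤ r} with hA
  have : Finite A := hf
  have e : Fin (A.ncard) ≃ A := (Finite.equivFinOfCardEq (Nat.card_coe_set_eq A)).symm
  have hx : x ∈ A := by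
    show X.dist x x ≤ r
    rw [SimpleGraph.dist_self]
    exact Nat.zero_le _
  refine ⟨⟨⟨A.ncard, Nat.lt_succ_of_le hN⟩, ((X.induce A).comap e.toEmbedding, e.symm ⟨x, hx⟩)⟩,
    ⟨SimpleGraph.Iso.comap e (X.induce A), ?_⟩⟩
  show ((e (e.symm ⟨x, hx⟩) : A) : V) = x
  rw [e.apply_symm_apply]

theorem ncard_setOf {α : Type u} [Fintype α] (p : α → Prop) [DecidablePred p] :
    {x | p x}.ncard = (Finset.univ.filter p).card := by
  rw [Set.ncard_eq_toFinset_card', Set.toFinset_ofPred]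

variable {Γ : Type u} [Group Γ] {S : Finset Γ}

theorem fin_Bn (hW : WM S) (n : ℕ) : (Bn S n).Finite := hW.fin 1 n

theorem dist_le_ball {n : ℕ} (hc : (ballG S n).Connected) (x y : Bn S n) :
    dd S (x : Γ) (y : Γ) ≤ (ballG S n).dist x y := by
  obtain ⟨p, hp⟩ := hc.exists_walk_length_eq_dist x y
  have h := SimpleGraph.dist_le (p.map (SimpleGraph.Embedding.induce (G := Cay S) (Bn S n)).toHom)
  rw [SimpleGraph.Walk.length_map] at h
  exact h.trans hp.le

theorem type_ball (hW : WM S) {n : ℕ} (hc : (ballG S n).Connected) (x : Bn S n) (r : ℕ) :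
    ∃ τ : Ty (bc S r), BI (ballG S n) x r τ := by
  have : Finite (Bn S n) := fin_Bn hW n
  refine exists_type _ x r _ (Set.toFinite _) ?_
  rw [← hW.card (x : Γ) r]
  refine Set.ncard_le_ncard_of_injOn (fun y : Bn S n => (y : Γ)) ?_
    (fun a _ b _ h => Subtype.ext h) (hW.fin _ _)
  intro y hy
  exact (dist_le_ball hc x y).trans hy

theorem main (hISO : S_ISO.{u, w}) (Ω : Type v) [MeasurableSpace Ω]
    (P : Measure Ω) (V : Ω → Type w) (H : ∀ ω, SimpleGraph (V ω)) (ρ : ∀ ω, V ω) (hW : WM S)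
    (hL : IsBallLimit S P V H ρ) (hc : ∀ n, (ballG S n).Connected) (M k L n0 : ℕ) (ε : ℝ)
    (hF : ∀ n, n0 ≤ n → (Set.ncard {x : Bn S n | ¬ Cut (ballG S n) x M k L} : ℝ) ≤ ε * bc S n) :
    P {ω | ¬ Cut (H ω) (ρ ω) M k L} ≤ ENNReal.ofReal ε := by
  classical
  have := hL.prob
  set r := L + 1 with hr
  let Good : Finset (Ty (bc S r)) := (Set.toFinite {τ : Ty (bc S r) | rep τ = τ ∧
    ∃ n, ∃ x : Bn S n, BI (ballG S n) x r τ ∧ Cut (ballG S n) x M k L}).toFinset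
  have hGood : ∀ τ, τ ∈ Good ↔ rep τ = τ ∧
      ∃ n, ∃ x : Bn S n, BI (ballG S n) x r τ ∧ Cut (ballG S n) x M k L := by
    intro τ
    simp [Good]
  let E : Ty (bc S r) → Set Ω := fun τ => {ω | BI (H ω) (ρ ω) r τ}
  have hEm : ∀ τ, MeasurableSet (E τ) := fun τ => hL.meas r _ τ.2.1 τ.2.2
  have hsub : {ω | ¬ Cut (H ω) (ρ ω) M k L} ⊆ (⋃ τ ∈ Good, E τ)ᶜ := by
    intro ω hω hmem
    rw [Set.mem_iUnion₂] at hmem
    obtain ⟨τ, hτ, hE⟩ := hmem
    obtain ⟨_, n, x, h1, h2⟩ := (hGood τ).1 hτ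
    exact hω (hISO _ _ (ballG S n) (H ω) x (ρ ω) M k L _ τ.2.1 τ.2.2 (hc n) (hL.conn ω) h1 hE h2)
  have hdisj : (Good : Set (Ty (bc S r))).PairwiseDisjoint E := by
    intro τ hτ σ hσ hne
    rw [Function.onFun, Set.disjoint_left]
    intro ω h1 h2
    apply hne
    have h3 := rep_eq (bi_unique h1 h2)
    rw [((hGood τ).1 hτ).1, ((hGood σ).1 hσ).1] at h3
    exact h3
  have hreal : P.real (⋃ τ ∈ Good, E τ) = ∑ τ ∈ Good, P.real (E τ) :=
    measureReal_biUnion_finset hdisj (fun τ _ => hEm τ)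
  obtain ⟨n, hn, hlim⟩ := hL.lim
  have htend : Tendsto (fun j => ∑ τ ∈ Good, frac S (n j) r τ.2.1 τ.2.2) atTop
      (𝓝 (∑ τ ∈ Good, P.real (E τ))) :=
    tendsto_finsetSum _ fun τ _ => hlim r _ τ.2.1 τ.2.2
  have hge : 1 - ε ≤ ∑ τ ∈ Good, P.real (E τ) := by
    refine ge_of_tendsto htend ?_
    filter_upwards [eventually_ge_atTop n0] with j hj
    have hnj : n0 ≤ n j := hj.trans (hn.id_le j)
    have hFj := hF (n j) hnj
    have : Fintype (Bn S (n j)) := (fin_Bn hW (n j)).fintype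
    have hbc : (Set.ncard (Bn S (n j)) : ℝ) = bc S (n j) := rfl
    have hbcpos : (0 : ℝ) < bc S (n j) := by
      exact_mod_cast hW.pos (n j)
    have hcard : (Finset.univ : Finset (Bn S (n j))).card = bc S (n j) := by
      rw [Finset.card_univ, ← Nat.card_eq_fintype_card]
      exact Nat.card_coe_set_eq _
    have h1 : (Finset.univ.filter fun x : Bn S (n j) => Cut (ballG S (n j)) x M k L).card ≤
        ∑ τ ∈ Good, Set.ncard {x : Bn S (n j) | BallIso (ballG S (n j)) x r τ.2.1 τ.2.2} := by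
      have h2 : (Finset.univ.filter fun x : Bn S (n j) => Cut (ballG S (n j)) x M k L) ⊆
          Good.biUnion fun τ => Finset.univ.filter fun x : Bn S (n j) =>
            BallIso (ballG S (n j)) x r τ.2.1 τ.2.2 := by
        intro x hx
        rw [Finset.mem_filter] at hx
        obtain ⟨τ, hτ⟩ := type_ball hW (hc (n j)) x r
        rw [Finset.mem_biUnion]
        refine ⟨rep τ, (hGood _).2 ⟨rep_rep τ, n j, x, bi_rep hτ, hx.2⟩, ?_⟩
        rw [Finset.mem_filter]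
        exact ⟨Finset.mem_univ _, bi_rep hτ⟩
      refine (Finset.card_le_card h2).trans (Finset.card_biUnion_le.trans ?_)
      refine Finset.sum_le_sum fun τ _ => ?_
      rw [ncard_setOf]
    have h3 : (Finset.univ.filter fun x : Bn S (n j) => Cut (ballG S (n j)) x M k L).card +
        (Finset.univ.filter fun x : Bn S (n j) => ¬ Cut (ballG S (n j)) x M k L).card =
          bc S (n j) := by
      rw [← hcard]
      exact Finset.card_filter_add_card_filter_not _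
    have h4 : (Finset.univ.filter fun x : Bn S (n j) => ¬ Cut (ballG S (n j)) x M k L).card =
        Set.ncard {x : Bn S (n j) | ¬ Cut (ballG S (n j)) x M k L} := (ncard_setOf _).symm
    have h5 : ∑ τ ∈ Good, frac S (n j) r τ.2.1 τ.2.2 =
        ((∑ τ ∈ Good, Set.ncard {x : Bn S (n j) | BallIso (ballG S (n j)) x r τ.2.1 τ.2.2} : ℕ)
          : ℝ) / bc S (n j) := by
      rw [Nat.cast_sum, Finset.sum_div]
      rfl
    rw [h5, le_div_iff₀ hbcpos]
    have h6 : ((Finset.univ.filter fun x : Bn S (n j) => Cut (ballG S (n j)) x M k L).card : ℝ) +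
        ((Finset.univ.filter fun x : Bn S (n j) => ¬ Cut (ballG S (n j)) x M k L).card : ℝ) =
          bc S (n j) := by exact_mod_cast h3
    rw [h4] at h6
    have h7 : ((Finset.univ.filter fun x : Bn S (n j) => Cut (ballG S (n j)) x M k L).card : ℝ) ≤
        ((∑ τ ∈ Good, Set.ncard {x : Bn S (n j) | BallIso (ballG S (n j)) x r τ.2.1 τ.2.2} : ℕ)
          : ℝ) := by exact_mod_cast h1
    nlinarith
  have hUm : MeasurableSet (⋃ τ ∈ Good, E τ) :=
    Finset.measurableSet_biUnion _ fun τ _ => hEm τ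
  refine (measure_mono hsub).trans ?_
  have h8 : P.real (⋃ τ ∈ Good, E τ)ᶜ = 1 - P.real (⋃ τ ∈ Good, E τ) :=
    probReal_compl_eq_one_sub hUm
  rw [← ENNReal.ofReal_toReal (measure_ne_top P (⋃ τ ∈ Good, E τ)ᶜ)]
  apply ENNReal.ofReal_le_ofReal
  show P.real (⋃ τ ∈ Good, E τ)ᶜ ≤ ε
  rw [h8, hreal]
  linarith

theorem t_LL : S_LL.{u, v, w} := by
  intro hISO Γ _ S Ω _ P V H ρ hW hL hF hc
  obtain ⟨M, hM⟩ := hF
  refine ⟨M, ?_⟩
  rw [ae_all_iff]
  intro k
  rw [ae_iff]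
  have key : ∀ ε : ℝ, 0 < ε → P {ω | ¬ ∃ L, Cut (H ω) (ρ ω) M k L} ≤ ENNReal.ofReal ε := by
    intro ε hε
    obtain ⟨L, n0, h⟩ := hM k ε hε
    refine (measure_mono ?_).trans (main hISO Ω P V H ρ hW hL hc M k L n0 ε h)
    intro ω hω hcut
    exact hω ⟨L, hcut⟩
  refine le_antisymm ?_ (by simp)
  refine ENNReal.le_of_forall_pos_le_add fun ε hε _ => ?_
  rw [zero_add]
  refine (key ε (by exact_mod_cast hε)).trans ?_
  rw [ENNReal.ofReal_coe_nnreal]

end Pool.Agent.R667.PE.LLx
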