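import Pool.Agent.R667.PE.Stm

/-! Percolation on ball limits (MP_ac3f41_pr): the piece MAINQ, the main inequality
`∑ aa j * bc (n - j) ≤ C * bc n`. -/

set_option autoImplicit false

open MeasureTheory Filter Topology

namespace Pool.Agent.R667.PE.MAINQx

open Pool.Agent.R667.PE

universe u

section

variable {Γ : Type u} [Group Γ] {S : Finset Γ} {R : ℕ}

/-- if `z` belongs to the bushes of `u` and of the core point `v`, then `|v| ≤ |u| + D` -/
theorem level_le (hW : WM S) (c0 : ℕ) (z u v a b p q : Γ)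
    (hu : 3 * R + c0 + 1 ≤ dd S 1 u)
    (hua : dd S u a ≤ c0) (hvb : dd S v b ≤ c0) (hsa : Sep S R a z 1)
    (hcv : Core S R v)
    (hq1 : dd S 1 q + dd S q z = dd S 1 z) (hq : dd S b q ≤ R) :
    dd S 1 v ≤ dd S 1 u + (4 * R + 4 * c0 + 1) := by
  by_contra hlt
  have hlt' : dd S 1 u + (4 * R + 4 * c0 + 1) < dd S 1 v := not_le.mp hlt
  apply hcv
  have hsymm := hW.symm
  have htri := hW.tri
  have e1 := htri 1 a u
  have e2 := hsymm a u
  have e3 := htri 1 u a
  have e4 := htri 1 a v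
  have e5 := hsymm a 1
  have hav : 3 * R < dd S a v := by omega
  have ha1 : 3 * R < dd S a 1 := by omega
  have hKa : ∀ t : Γ, dd S 1 u + c0 + R < dd S 1 t → t ∉ Kb S R a := by
    intro t ht hmem
    have hmem' : dd S a t ≤ R := hmem
    have := htri 1 a t
    omega
  have r1 : Reach (Cay S) (Kb S R a) v b := by
    apply hW.rgeo
    intro t ht
    apply hKa
    have := htri 1 t v
    have := hsymm t v
    omega
  have r2 : Reach (Cay S) (Kb S R a) b q := by
    apply hW.rgeo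
    intro t ht
    apply hKa
    have := htri 1 t b
    have := hsymm t b
    have := htri 1 b v
    have := hsymm b v
    omega
  have r3 : Reach (Cay S) (Kb S R a) q z := by
    apply hW.rgeo
    intro t ht
    apply hKa
    have := htri 1 t z
    have := htri 1 b v
    have := hsymm b v
    have := htri 1 q b
    have := hsymm q b
    omega
  refine ⟨a, ⟨?_, hsa.2.1, ?_⟩, hav, ha1⟩
  · intro hmem
    have hmem' : dd S a v ≤ R := hmem
    omega
  · intro hr
    apply hsa.2.2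
    exact hW.rtrans _ _ _ _ (hW.rsymm _ _ _ (hW.rtrans _ _ _ _ (hW.rtrans _ _ _ _ r1 r2) r3)) hr

/-- two core points whose bushes contain the same point are near each other -/
theorem near (hW : WM S) (c0 : ℕ) (z u v a b : Γ)
    (hu : 3 * R + c0 + 1 ≤ dd S 1 u) (hv : 3 * R + c0 + 1 ≤ dd S 1 v)
    (hua : dd S u a ≤ c0) (hvb : dd S v b ≤ c0) (hsa : Sep S R a z 1) (hsb : Sep S R b z 1)
    (hcu : Core S R u) (hcv : Core S R v) :
    dd S u v ≤ (4 * R + 4 * c0 + 1) + 4 * (c0 + R) := by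
  obtain ⟨Gd, hG1, hG2, hG3⟩ := hW.path 1 z
  have hp : ∃ p ∈ Gd, p ∈ Kb S R a := by
    by_contra hno
    have hno' : ∀ p ∈ Gd, p ∉ Kb S R a := fun p hp hm => hno ⟨p, hp, hm⟩
    exact hsa.2.2 (hW.rsymm _ _ _ (hG3 _ hno'))
  have hq : ∃ q ∈ Gd, q ∈ Kb S R b := by
    by_contra hno
    have hno' : ∀ p ∈ Gd, p ∉ Kb S R b := fun p hp hm => hno ⟨p, hp, hm⟩
    exact hsb.2.2 (hW.rsymm _ _ _ (hG3 _ hno'))
  obtain ⟨p, hpG, hpK⟩ := hp
  obtain ⟨q, hqG, hqK⟩ := hq
  have hpK' : dd S a p ≤ R := hpK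
  have hqK' : dd S b q ≤ R := hqK
  have l1 := level_le hW c0 z u v a b p q hu hua hvb hsa hcv (hG1 q hqG) hqK'
  have l2 := level_le hW c0 z v u b a q p hv hvb hua hsb hcu (hG1 p hpG) hpK'
  have hsymm := hW.symm
  have htri := hW.tri
  -- levels of p and q
  have a1 := htri 1 u a
  have a2 := htri 1 a p
  have a3 := htri 1 a u
  have a4 := hsymm a u
  have a5 := htri 1 p a
  have a6 := hsymm p a
  have b1 := htri 1 v b
  have b2 := htri 1 b q
  have b3 := htri 1 b v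
  have b4 := hsymm b v
  have b5 := htri 1 q b
  have b6 := hsymm q b
  have hpq : dd S p q ≤ (4 * R + 4 * c0 + 1) + 2 * (c0 + R) := by
    rcases le_total (dd S 1 p) (dd S 1 q) with h | h
    · have := hG2 p hpG q hqG h
      omega
    · have := hG2 q hqG p hpG h
      have := hsymm p q
      omega
  have c1 := htri u a v
  have c2 := htri a p v
  have c3 := htri p q v
  have c4 := htri q b v
  omega

end

theorem t_MAINQ : S_MAINQ.{u} := by
  intro Γ _ S R hW hR hB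
  classical
  obtain ⟨c0, L0, N, hB⟩ := hB
  refine ⟨3 * R + c0 + 1, bc S c0 * N * bc S ((4 * R + 4 * c0 + 1) + 4 * (c0 + R)), c0 + L0, ?_⟩
  intro n J hn
  set j0 := 3 * R + c0 + 1 with hj0
  set C2 := bc S ((4 * R + 4 * c0 + 1) + 4 * (c0 + R)) with hC2
  -- the choice of `a`
  have hch : ∀ u : Γ, ∃ a : Γ, (R < dd S 1 u → L0 ≤ n - dd S 1 u - c0 →
      dd S u a ≤ c0 ∧ bc S (n - dd S 1 u - c0) ≤
        N * Set.ncard {z | dd S a z ≤ n - dd S 1 u - c0 ∧ Sep S R a z 1}) := by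
    intro u
    by_cases h : R < dd S 1 u ∧ L0 ≤ n - dd S 1 u - c0
    · obtain ⟨a, ha⟩ := hB u h.1 _ h.2
      exact ⟨a, fun _ _ => ha⟩
    · exact ⟨1, fun h1 h2 => absurd ⟨h1, h2⟩ h⟩
  choose a ha using hch
  -- finite sets
  have hfB : {x : Γ | dd S 1 x ≤ n}.Finite := hW.fin 1 n
  have hfU : {x : Γ | (j0 ≤ dd S 1 x ∧ dd S 1 x ≤ J) ∧ Core S R x}.Finite :=
    (hW.fin 1 J).subset (fun x hx => hx.1.2)
  have hfUj : ∀ j, {x : Γ | dd S 1 x = j ∧ Core S R x}.Finite := fun j =>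
    (hW.fin 1 j).subset (fun x hx => hx.1.le)
  have hfZ : ∀ u : Γ, {z | dd S (a u) z ≤ n - dd S 1 u - c0 ∧ Sep S R (a u) z 1}.Finite :=
    fun u => (hW.fin (a u) _).subset (fun x hx => hx.1)
  -- step 1: rewrite the sum over levels
  have s1 : ∑ j ∈ Finset.Icc j0 J, aa S R j * bc S (n - j) =
      ∑ u ∈ hfU.toFinset, bc S (n - dd S 1 u) := by
    have hmaps : ∀ u ∈ hfU.toFinset, dd S 1 u ∈ Finset.Icc j0 J := by
      intro u hu
      rw [Set.Finite.mem_toFinset] at hu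
      exact Finset.mem_Icc.mpr hu.1
    rw [← Finset.sum_fiberwise_of_maps_to hmaps]
    refine Finset.sum_congr rfl ?_
    intro j hj
    have : ∀ u ∈ hfU.toFinset.filter (fun u => dd S 1 u = j),
        bc S (n - dd S 1 u) = bc S (n - j) := by
      intro u hu
      rw [(Finset.mem_filter.mp hu).2]
    rw [Finset.sum_congr rfl this, Finset.sum_const, smul_eq_mul]
    congr 1
    unfold aa
    rw [Set.ncard_eq_toFinset_card _ (hfUj j)]
    congr 1
    ext x
    simp only [Set.Finite.mem_toFinset, Finset.mem_filter, Set.mem_setOf_eq]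
    rw [Finset.mem_Icc] at hj
    constructor
    · rintro ⟨h1, h2⟩
      exact ⟨⟨⟨by omega, by omega⟩, h2⟩, h1⟩
    · rintro ⟨⟨_, h2⟩, h1⟩
      exact ⟨h1, h2⟩
  -- step 2: each term
  have s2 : ∀ u ∈ hfU.toFinset, bc S (n - dd S 1 u) ≤
      bc S c0 * N * ∑ z ∈ hfB.toFinset,
        (if dd S (a u) z ≤ n - dd S 1 u - c0 ∧ Sep S R (a u) z 1 then 1 else 0) := by
    intro u hu
    rw [Set.Finite.mem_toFinset] at hu
    obtain ⟨⟨hu1, hu2⟩, hu3⟩ := hu
    have hL : L0 ≤ n - dd S 1 u - c0 := by omega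
    obtain ⟨h1, h2⟩ := ha u (by omega) hL
    have h3 : bc S (n - dd S 1 u) ≤ bc S c0 * bc S (n - dd S 1 u - c0) := by
      have := hW.sub c0 (n - dd S 1 u - c0)
      rwa [show c0 + (n - dd S 1 u - c0) = n - dd S 1 u by omega] at this
    have h4 : Set.ncard {z | dd S (a u) z ≤ n - dd S 1 u - c0 ∧ Sep S R (a u) z 1} =
        ∑ z ∈ hfB.toFinset,
        (if dd S (a u) z ≤ n - dd S 1 u - c0 ∧ Sep S R (a u) z 1 then 1 else 0) := by
      rw [Set.ncard_eq_toFinset_card _ (hfZ u), Finset.sum_boole, Nat.cast_id]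
      congr 1
      ext z
      simp only [Set.Finite.mem_toFinset, Finset.mem_filter, Set.mem_setOf_eq]
      constructor
      · rintro ⟨h5, h6⟩
        refine ⟨?_, h5, h6⟩
        have := hW.tri 1 u z
        have := hW.tri u (a u) z
        omega
      · rintro ⟨_, h5⟩
        exact h5
    calc bc S (n - dd S 1 u) ≤ bc S c0 * bc S (n - dd S 1 u - c0) := h3
      _ ≤ bc S c0 * (N * Set.ncard {z | dd S (a u) z ≤ n - dd S 1 u - c0 ∧
          Sep S R (a u) z 1}) := Nat.mul_le_mul_left _ h2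
      _ = bc S c0 * N * Set.ncard {z | dd S (a u) z ≤ n - dd S 1 u - c0 ∧
          Sep S R (a u) z 1} := (mul_assoc _ _ _).symm
      _ = _ := by rw [h4]
  -- step 3: multiplicity
  have s3 : ∀ z ∈ hfB.toFinset, ∑ u ∈ hfU.toFinset,
      (if dd S (a u) z ≤ n - dd S 1 u - c0 ∧ Sep S R (a u) z 1 then 1 else 0) ≤ C2 := by
    intro z _
    rw [Finset.sum_boole, Nat.cast_id]
    by_cases hne : (hfU.toFinset.filter
        (fun u => dd S (a u) z ≤ n - dd S 1 u - c0 ∧ Sep S R (a u) z 1)).Nonempty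
    · obtain ⟨u0, hu0⟩ := hne
      have hfin := hW.fin u0 ((4 * R + 4 * c0 + 1) + 4 * (c0 + R))
      have hcard := hW.card u0 ((4 * R + 4 * c0 + 1) + 4 * (c0 + R))
      rw [Set.ncard_eq_toFinset_card _ hfin] at hcard
      rw [hC2, ← hcard]
      apply Finset.card_le_card
      intro v hv
      rw [Finset.mem_filter, Set.Finite.mem_toFinset] at hu0 hv
      rw [Set.Finite.mem_toFinset]
      obtain ⟨⟨⟨hu1, hu2⟩, hu3⟩, hu4, hu5⟩ := hu0
      obtain ⟨⟨⟨hv1, hv2⟩, hv3⟩, hv4, hv5⟩ := hv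
      obtain ⟨h1, _⟩ := ha u0 (by omega) (by omega)
      obtain ⟨h2, _⟩ := ha v (by omega) (by omega)
      exact near hW c0 z u0 v (a u0) (a v) (by omega) (by omega) h1 h2 hu5 hv5 hu3 hv3
    · rw [Finset.not_nonempty_iff_eq_empty.mp hne]
      exact Nat.zero_le _
  -- conclusion
  have hbn : bc S n = hfB.toFinset.card := by
    rw [← hW.card 1 n, Set.ncard_eq_toFinset_card _ hfB]
  rw [s1]
  calc ∑ u ∈ hfU.toFinset, bc S (n - dd S 1 u)
      ≤ ∑ u ∈ hfU.toFinset, bc S c0 * N * ∑ z ∈ hfB.toFinset,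
        (if dd S (a u) z ≤ n - dd S 1 u - c0 ∧ Sep S R (a u) z 1 then 1 else 0) :=
        Finset.sum_le_sum s2
    _ = bc S c0 * N * ∑ z ∈ hfB.toFinset, ∑ u ∈ hfU.toFinset,
        (if dd S (a u) z ≤ n - dd S 1 u - c0 ∧ Sep S R (a u) z 1 then 1 else 0) := by
        rw [← Finset.mul_sum, Finset.sum_comm]
    _ ≤ bc S c0 * N * ∑ z ∈ hfB.toFinset, C2 :=
        Nat.mul_le_mul_left _ (Finset.sum_le_sum s3)
    _ = bc S c0 * N * C2 * bc S n := by
        rw [Finset.sum_const, smul_eq_mul, hbn]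
        ring

end Pool.Agent.R667.PE.MAINQx
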