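import Pool.Agent.R667.PE.Stm

/-! PE: the parent map. -/

set_option autoImplicit false

namespace Pool.Agent.R667.PE.PARx

open Pool.Agent.R667.PE

universe u

theorem t_PAR : S_PAR.{u} := by
  intro Γ _ S W
  have h : ∀ x : Γ, ∃ p, 0 < dd S 1 x → dd S 1 p + 1 = dd S 1 x ∧ dd S p x = 1 := by
    intro x
    by_cases h0 : 0 < dd S 1 x
    · obtain ⟨p, hp1, hp2⟩ := W.geo x 1 1 (by rw [W.symm x 1]; omega)
      refine ⟨p, fun _ => ⟨?_, ?_⟩⟩
      · rw [W.symm 1 p, W.symm 1 x]; omega
      · rw [W.symm p x]; exact hp1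
    · exact ⟨x, fun h => absurd h h0⟩
  choose par hpar using h
  refine ⟨par, fun x j => ?_⟩
  induction j with
  | zero =>
    intro _
    simp only [Function.iterate_zero, id]
    exact ⟨by omega, W.self x⟩
  | succ j ih =>
    intro hj
    obtain ⟨h1, h2⟩ := ih (by omega)
    rw [Function.iterate_succ_apply']
    obtain ⟨h3, h4⟩ := hpar (par^[j] x) (by omega)
    have t1 := W.tri (par (par^[j] x)) (par^[j] x) x
    have t2 := W.tri 1 (par (par^[j] x)) x
    constructor <;> omega

end Pool.Agent.R667.PE.PARx
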