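import Pool.Agent.R667.PE.Stm

/-! Piece PB of project PE (MP_ac3f41_pr): a product measure bound. -/

set_option autoImplicit false

open MeasureTheory Filter Topology ProbabilityTheory

namespace Pool.Agent.R667.PE.PBx

universe w

lemma ber_univ {p : ℝ} (h0 : 0 ≤ p) (h1 : p ≤ 1) : ber p Set.univ = 1 := by
  unfold ber
  simp only [Measure.coe_add, Measure.coe_smul, Pi.add_apply, Pi.smul_apply, measure_univ,
    smul_eq_mul, mul_one]
  rw [← ENNReal.ofReal_add h0 (by linarith)]
  simp

lemma ber_false {p : ℝ} : ber p {false} = ENNReal.ofReal (1 - p) := by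
  unfold ber
  simp

theorem t_PB : S_PB.{w} := by
  classical
  intro V k M E p h0 h1 hE hd
  haveI : IsProbabilityMeasure (ber p) := ⟨ber_univ h0 h1⟩
  choose hfin hcard using hE
  let E' : Fin k → Finset (Sym2 V) := fun i => (hfin i).toFinset
  have hE' : ∀ i, (E' i : Set (Sym2 V)) = E i := fun i => (hfin i).coe_toFinset
  have hE'c : ∀ i, (E' i).card ≤ M := by
    intro i
    rw [← Set.ncard_coe_finset, hE' i]
    exact hcard i
  let B : Fin k → Set (Sym2 V → Bool) := fun i => Set.pi (E' i : Set (Sym2 V)) fun _ => {false}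
  have hBm : ∀ i, MeasurableSet (B i) := fun i =>
    MeasurableSet.pi (E' i).countable_toSet fun _ _ => measurableSet_singleton _
  have hq : ∀ s : Finset (Fin k), perc V p (⋂ i ∈ s, B i) =
      ∏ i ∈ s, ENNReal.ofReal (1 - p) ^ (E' i).card := by
    intro s
    have e1 : (⋂ i ∈ s, B i) = Set.pi ((s.biUnion E' : Finset (Sym2 V)) : Set (Sym2 V))
        fun _ => ({false} : Set Bool) := by
      ext η
      simp only [B, Set.mem_iInter, Set.mem_pi, Finset.coe_biUnion, Set.mem_iUnion,
        Finset.mem_coe, exists_prop]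
      constructor
      · rintro h e ⟨i, hi, he⟩
        exact h i hi e he
      · intro h i hi e he
        exact h e ⟨i, hi, he⟩
    rw [e1]
    unfold perc
    rw [Measure.infinitePi_pi _ (fun _ _ => measurableSet_singleton _), Finset.prod_biUnion]
    · refine Finset.prod_congr rfl fun i _ => ?_
      rw [Finset.prod_const, ber_false]
    · intro i _ j _ hij
      simp only [Function.onFun]
      rw [← Finset.disjoint_coe, hE' i, hE' j]
      exact hd i j hij
  have hB1 : ∀ i, perc V p (B i) = ENNReal.ofReal (1 - p) ^ (E' i).card := by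
    intro i
    have := hq {i}
    simpa using this
  have hind : iIndepSet B (perc V p) := by
    rw [iIndepSet_iff_meas_biInter hBm]
    intro s
    rw [hq s]
    exact Finset.prod_congr rfl fun i _ => (hB1 i).symm
  have hset : {η : Sym2 V → Bool | ∀ i, ∃ e ∈ E i, η e = true} = ⋂ i, (B i)ᶜ := by
    ext η
    simp only [Set.mem_ofPred_eq, Set.mem_iInter, Set.mem_compl_iff, B, Set.mem_pi,
      Set.mem_singleton_iff]
    refine forall_congr' fun i => ?_
    push Not
    constructor
    · rintro ⟨e, he, h⟩
      refine ⟨e, by rw [hE' i]; exact he, by rw [h]; simp⟩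
    · rintro ⟨e, he, h⟩
      refine ⟨e, by rw [← hE' i]; exact he, by simpa using h⟩
  haveI : IsProbabilityMeasure (perc V p) := by unfold perc; infer_instance
  rw [hset]
  have hm := iIndep.meas_iInter (μ := perc V p) hind (s := fun i => (B i)ᶜ)
    (fun i => (MeasurableSpace.measurableSet_generateFrom (Set.mem_singleton _)).compl)
  rw [hm]
  have hp0 : 0 ≤ 1 - p := by linarith
  have hp1 : 1 - p ≤ 1 := by linarith
  calc ∏ i, perc V p (B i)ᶜ ≤ ∏ _i : Fin k, ENNReal.ofReal (1 - (1 - p) ^ M) := by
        refine Finset.prod_le_prod' fun i _ => ?_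
        rw [prob_compl_eq_one_sub (hBm i), hB1 i, ← ENNReal.ofReal_pow hp0,
          ← ENNReal.ofReal_one, ← ENNReal.ofReal_sub _ (by positivity)]
        refine ENNReal.ofReal_le_ofReal ?_
        have := pow_le_pow_of_le_one hp0 hp1 (hE'c i)
        linarith
    _ = ENNReal.ofReal ((1 - (1 - p) ^ M) ^ k) := by
        rw [Finset.prod_const, Finset.card_univ, Fintype.card_fin, ENNReal.ofReal_pow]
        have := pow_le_one₀ hp0 hp1 (n := M)
        linarith

end Pool.Agent.R667.PE.PBx
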