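import Pool.Agent.R667.PE.Stm

/-! PE-PERC: no infinite open cluster for `p < 1`. -/

set_option autoImplicit false

open MeasureTheory Filter Topology

namespace Pool.Agent.R667.PE.PERCx

universe w

open Pool.Agent.R667.PE

variable {V : Type w} {X : SimpleGraph V}

theorem walks_finite (hlf : ∀ a, (X.neighborSet a).Finite) (n : ℕ) (x : V) :
    {y | ∃ p : X.Walk x y, p.length = n}.Finite := by
  induction n generalizing x with
  | zero =>
    refine (Set.finite_singleton x).subset ?_
    rintro y ⟨p, hp⟩
    exact (SimpleGraph.Walk.eq_of_length_eq_zero hp).symm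
  | succ n ih =>
    refine ((hlf x).biUnion fun z _ => ih z).subset ?_
    rintro y ⟨p, hp⟩
    cases p with
    | nil => simp at hp
    | @cons _ z _ h q =>
      simp only [Set.mem_iUnion]
      exact ⟨z, h, q, by simpa using hp⟩

theorem countable_of (hc : X.Connected) (hlf : ∀ a, (X.neighborSet a).Finite) (x : V) :
    Countable V := by
  rw [← Set.countable_univ_iff]
  refine (Set.countable_iUnion fun n : ℕ => (walks_finite hlf n x).countable).mono ?_
  intro y _
  obtain ⟨p⟩ := hc.preconnected x y
  exact Set.mem_iUnion.2 ⟨p.length, p, rfl⟩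

/-- a walk in a subgraph from `A` to its complement crosses the boundary -/
theorem cross {Y : SimpleGraph V} (hY : Y ≤ X) {a b : V} (q : Y.Walk a b) (A : Set V)
    (ha : a ∈ A) (hb : b ∉ A) : ∃ y z, y ∈ A ∧ z ∉ A ∧ s(y, z) ∈ q.edges ∧ Y.Adj y z ∧
      s(y, z) ∈ bd X A := by
  obtain ⟨d, hd, h1, h2⟩ := q.exists_boundary_dart A ha hb
  refine ⟨d.fst, d.snd, h1, h2, ?_, d.adj, d.fst, h1, d.snd, h2, hY d.adj, rfl⟩
  exact List.mem_map_of_mem (f := SimpleGraph.Dart.edge) hd

theorem cluster_null (hPB : S_PB.{w}) (x v : V) (M : ℕ) (hc : X.Connected)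
    (hcut : ∀ k, ∃ L, Cut X x M k L) (p : ℝ) (h0 : 0 ≤ p) (h1 : p < 1) :
    perc V p {η | {y | (openG X η).Reachable v y}.Infinite} = 0 := by
  classical
  obtain ⟨p0⟩ := hc.preconnected x v
  have key : ∀ k : ℕ, perc V p {η | {y | (openG X η).Reachable v y}.Infinite} ≤
      ENNReal.ofReal ((1 - (1 - p) ^ M) ^ k) := by
    intro k
    obtain ⟨L, A, hxA, -, hbd, hdis⟩ := hcut (k + p0.length)
    set T : Finset (Fin (k + p0.length)) := Finset.univ.filter fun i => v ∉ A i with hT
    have hTc : T.card ≤ p0.length := by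
      have hch : ∀ i, ∃ e : Sym2 V, i ∈ T → e ∈ p0.edges ∧ e ∈ bd X (A i : Set V) := by
        intro i
        by_cases hi : i ∈ T
        · have hv : v ∉ (A i : Set V) := by simpa [hT] using hi
          obtain ⟨y, z, -, -, h3, -, h4⟩ := cross (le_refl X) p0 (A i : Set V)
            (by simpa using hxA i) hv
          exact ⟨s(y, z), fun _ => ⟨h3, h4⟩⟩
        · exact ⟨s(x, x), fun h => absurd h hi⟩
      choose e he using hch
      calc T.card ≤ p0.edges.toFinset.card := by
            refine Finset.card_le_card_of_injOn e (fun i hi => ?_) (fun i hi j hj hij => ?_)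
            · simpa using (he i hi).1
            · by_contra hne
              have h5 := Set.disjoint_left.1 (hdis i j hne) (he i hi).2
              rw [hij] at h5
              exact h5 (he j hj).2
        _ ≤ p0.edges.length := List.toFinset_card_le _
        _ = p0.length := p0.length_edges
    have hIc : k ≤ (Finset.univ.filter fun i => v ∈ A i).card := by
      have h2 := Finset.card_filter_add_card_filter_not (s := (Finset.univ : Finset (Fin (k + p0.length))))
        (p := fun i => v ∈ A i)
      rw [Finset.card_univ, Fintype.card_fin] at h2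
      have : (Finset.univ.filter fun i => ¬ v ∈ A i).card ≤ p0.length := hTc
      omega
    obtain ⟨s, hs, hsc⟩ := Finset.exists_subset_card_eq hIc
    set φ := s.orderEmbOfFin hsc with hφ
    have hφ1 : ∀ i, v ∈ A (φ i) := by
      intro i
      have := hs (s.orderEmbOfFin_mem hsc i)
      simpa using this
    refine (measure_mono ?_).trans (hPB V k M (fun i => bd X (A (φ i) : Set V)) p h0 h1.le
      (fun i => hbd _) (fun i j hij => hdis _ _ fun h => hij (φ.injective h)))
    intro η hη i
    have hη' : {y | (openG X η).Reachable v y}.Infinite := hη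
    obtain ⟨y, hy, hyA⟩ := hη'.exists_notMem_finset (A (φ i))
    obtain ⟨q⟩ := hy
    have hle : openG X η ≤ X := fun a b h => h.1
    obtain ⟨y', z', -, -, -, h4, h5⟩ := cross hle q (A (φ i) : Set V) (by simpa using hφ1 i)
      (by simpa using hyA)
    exact ⟨s(y', z'), h5, h4.2⟩
  have hr0 : 0 ≤ 1 - (1 - p) ^ M := by
    have := pow_le_one₀ (n := M) (show (0 : ℝ) ≤ 1 - p by linarith) (by linarith)
    linarith
  have hr1 : 1 - (1 - p) ^ M < 1 := by
    have := pow_pos (show (0 : ℝ) < 1 - p by linarith) M
    linarith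
  have hl : Tendsto (fun k : ℕ => ENNReal.ofReal ((1 - (1 - p) ^ M) ^ k)) atTop (𝓝 0) := by
    have := ENNReal.tendsto_ofReal (tendsto_pow_atTop_nhds_zero_of_lt_one hr0 hr1)
    simpa using this
  exact le_antisymm (ge_of_tendsto' hl key) bot_le

/-- PE-PERC. -/
theorem t_PERC : S_PERC.{w} := by
  intro hPB V X x M hc hlf hcut p h0 h1
  have := countable_of hc hlf x
  have e : {η : Sym2 V → Bool | InfCluster X η} =
      ⋃ v : V, {η | {y | (openG X η).Reachable v y}.Infinite} := by
    ext η
    simp [InfCluster]
  rw [e]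
  exact measure_iUnion_null fun v => cluster_null hPB x v M hc hcut p h0 h1

end Pool.Agent.R667.PE.PERCx
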