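import Pool.Agent.R667.PE.Stm

/-! Percolation on ball limits (MP_ac3f41_pr), piece STAGE: bad points of one stage. -/

set_option autoImplicit false

open MeasureTheory Filter Topology

namespace Pool.Agent.R667.PE.STAGEx

universe u

variable {Γ : Type u} [Group Γ] {S : Finset Γ}

theorem kb_iff (hW : WM S) (R : ℕ) (a g x : Γ) : a * x ∈ Kb S R (a * g) ↔ x ∈ Kb S R g := by
  show dd S (a * g) (a * x) ≤ R ↔ dd S g x ≤ R
  rw [hW.inv]

theorem sep_iff (hW : WM S) (R : ℕ) (a g x y : Γ) :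
    Sep S R (a * g) (a * x) (a * y) ↔ Sep S R g x y := by
  unfold Sep
  rw [kb_iff hW, kb_iff hW, hW.rinv]

theorem good_iff (hW : WM S) (R : ℕ) (a g x y : Γ) :
    GoodCut S R (a * g) (a * x) (a * y) ↔ GoodCut S R g x y := by
  unfold GoodCut
  rw [sep_iff hW, hW.inv, hW.inv]

theorem count (hW : WM S) (R : ℕ) (par : Γ → Γ) (hpar : Par S par) (q J l n : ℕ) (hl : l ≤ J) :
    Set.ncard {x : Γ | dd S 1 x ≤ n ∧ q + J ≤ dd S 1 x ∧
      ¬ ∃ g, GoodCut S R g (par^[q] x) (par^[q + l] x)} ≤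
        bc S (n - q - l) * aa S R l * bc S q := by
  have hY : (Bn S (n - q - l)).Finite := hW.fin 1 _
  have hU : ({x : Γ | dd S 1 x = l ∧ Core S R x}).Finite :=
    (hW.fin 1 l).subset fun x hx => le_of_eq hx.1
  have hB : (Bn S q).Finite := hW.fin 1 _
  have hP : (Bn S (n - q - l) ×ˢ ({x : Γ | dd S 1 x = l ∧ Core S R x} ×ˢ Bn S q)).Finite :=
    hY.prod (hU.prod hB)
  have hsub : {x : Γ | dd S 1 x ≤ n ∧ q + J ≤ dd S 1 x ∧
      ¬ ∃ g, GoodCut S R g (par^[q] x) (par^[q + l] x)} ⊆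
      (fun t : Γ × Γ × Γ => t.1 * t.2.1 * t.2.2) ''
        (Bn S (n - q - l) ×ˢ ({x : Γ | dd S 1 x = l ∧ Core S R x} ×ˢ Bn S q)) := by
    rintro x ⟨hx1, hx2, hx3⟩
    have h1 := hpar x q (by omega)
    have h2 := hpar (par^[q] x) l (by omega)
    have h3 := hpar x (q + l) (by omega)
    have e1 : par^[q + l] x = par^[l] (par^[q] x) := by
      rw [add_comm, Function.iterate_add_apply]
    rw [e1] at h3 hx3
    set p := par^[q] x with hp
    set y := par^[l] p with hy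
    have hyp : y * (y⁻¹ * p) = p := by group
    refine ⟨(y, y⁻¹ * p, p⁻¹ * x), ⟨?_, ⟨?_, ?_⟩, ?_⟩, ?_⟩
    · show dd S 1 y ≤ n - q - l
      omega
    · show dd S 1 (y⁻¹ * p) = l
      have h4 := hW.inv y 1 (y⁻¹ * p)
      rw [mul_one, hyp] at h4
      rw [← h4]
      exact h2.2
    · rintro ⟨g, hg⟩
      apply hx3
      refine ⟨y * g, ?_⟩
      have h4 := (good_iff hW R y g (y⁻¹ * p) 1).2 hg
      rw [hyp, mul_one] at h4
      exact h4
    · show dd S 1 (p⁻¹ * x) ≤ q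
      have h4 := hW.inv p 1 (p⁻¹ * x)
      have h5 : p * (p⁻¹ * x) = x := by group
      rw [mul_one, h5] at h4
      rw [← h4]
      exact h1.2.le
    · show y * (y⁻¹ * p) * (p⁻¹ * x) = x
      group
  refine (Set.ncard_le_ncard hsub (hP.image _)).trans ((Set.ncard_image_le hP).trans ?_)
  rw [Set.ncard_prod, Set.ncard_prod]
  unfold bc aa
  rw [mul_assoc]

theorem pigeon (f : ℕ → ℕ) (a b X : ℕ) (hab : a ≤ b) (h : ∑ j ∈ Finset.Icc a b, f j ≤ X) :
    ∃ l ∈ Finset.Icc a b, (b - a + 1) * f l ≤ X := by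
  by_contra hcon
  push Not at hcon
  have hne : (Finset.Icc a b).Nonempty := ⟨a, Finset.mem_Icc.2 ⟨le_rfl, hab⟩⟩
  have h1 := Finset.sum_lt_sum_of_nonempty hne hcon
  rw [Finset.sum_const, Nat.card_Icc, smul_eq_mul, ← Finset.mul_sum] at h1
  have h2 : b + 1 - a = b - a + 1 := by omega
  rw [h2] at h1
  have h3 := Nat.mul_le_mul_left (b - a + 1) h
  omega

theorem t_STAGE : S_STAGE.{u} := by
  intro Γ _ S R par hW hR hM hpar q δ hδ
  obtain ⟨j0, C, c1, hM⟩ := hM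
  obtain ⟨m, hm⟩ := exists_nat_ge ((bc S q * C : ℝ) / δ)
  refine ⟨j0 + m, (j0 + m) + c1 + q, fun n hn => ?_⟩
  obtain ⟨l, hl, hl'⟩ := pigeon (fun j => aa S R j * bc S (n - q - j)) j0 (j0 + m)
    (C * bc S (n - q)) (by omega) (hM (n - q) (j0 + m) (by omega))
  rw [Finset.mem_Icc] at hl
  refine ⟨l, hl.2, ?_⟩
  have h1 := count hW R par hpar q (j0 + m) l n hl.2
  set N := Set.ncard {x : Γ | dd S 1 x ≤ n ∧ q + (j0 + m) ≤ dd S 1 x ∧
      ¬ ∃ g, GoodCut S R g (par^[q] x) (par^[q + l] x)} with hN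
  have h2 : (j0 + m - j0 + 1) = m + 1 := by omega
  rw [h2] at hl'
  have h3 : bc S (n - q) ≤ bc S n := hW.mono _ _ (by omega)
  have h4 : (m + 1) * N ≤ C * bc S n * bc S q := by
    calc (m + 1) * N ≤ (m + 1) * (bc S (n - q - l) * aa S R l * bc S q) :=
          Nat.mul_le_mul_left _ h1
      _ = ((m + 1) * (aa S R l * bc S (n - q - l))) * bc S q := by ring
      _ ≤ (C * bc S (n - q)) * bc S q := Nat.mul_le_mul_right _ hl'
      _ ≤ (C * bc S n) * bc S q := Nat.mul_le_mul_right _ (Nat.mul_le_mul_left _ h3)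
  have h5 : ((m : ℝ) + 1) * N ≤ C * bc S n * bc S q := by exact_mod_cast h4
  rw [div_le_iff₀ hδ] at hm
  have h6 : (0 : ℝ) ≤ bc S n := Nat.cast_nonneg _
  have h7 : (C : ℝ) * bc S n * bc S q ≤ ((m : ℝ) + 1) * (δ * bc S n) := by
    have h8 := mul_le_mul_of_nonneg_right hm h6
    have h9 : 0 ≤ δ * (bc S n : ℝ) := mul_nonneg hδ.le h6
    nlinarith
  have h8 : (0 : ℝ) < (m : ℝ) + 1 := by positivity
  exact le_of_mul_le_mul_left (h5.trans h7) h8

end Pool.Agent.R667.PE.STAGEx
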