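import Pool.Agent.R667.PE.Stm

/-! Percolation on ball limits (MP_ac3f41_pr): piece T0. -/

set_option autoImplicit false

open MeasureTheory Filter Topology

namespace Pool.Agent.R667.PE.T0x

open Pool.Agent.R667.PE

universe u

theorem t_T0 : S_T0.{u} := by
  intro Γ _ S hW hM
  classical
  obtain ⟨K, x, hinf, hne⟩ := hM
  have hI : Infinite Γ := Set.infinite_univ_iff.mp ((hinf 0).mono (Set.subset_univ _))
  refine ⟨hI, ?_⟩
  obtain ⟨R, hR1, hR⟩ : ∃ R, 1 ≤ R ∧ ∀ v ∈ K, dd S 1 v ≤ R :=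
    ⟨(K.sup fun v => dd S 1 v) + 1, by omega, fun v hv => by
      have := Finset.le_sup (f := fun v => dd S 1 v) hv
      omega⟩
  have hKsub : (K : Set Γ) ⊆ Kb S R 1 := fun v hv => hR v hv
  have hmono : ∀ a b : Γ, Reach (Cay S) (Kb S R 1) a b → Reach (Cay S) (K : Set Γ) a b := by
    rintro a b ⟨p, hp⟩
    exact ⟨p, fun v hv hK => hp v hv (hKsub hK)⟩
  have hlev : ∀ z : Γ, z ∉ Kb S R 1 →
      ∃ r : Γ, dd S 1 r = R + 1 ∧ Reach (Cay S) (Kb S R 1) r z := by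
    intro z hz
    have hz' : R + 1 ≤ dd S 1 z := by
      by_contra h
      exact hz (show dd S 1 z ≤ R by omega)
    obtain ⟨r, hr1, hr2⟩ := hW.geo 1 z (R + 1) hz'
    refine ⟨r, hr1, hW.rgeo _ _ _ ?_⟩
    intro p hp hpK
    have h1 := hW.tri 1 p z
    have h2 : dd S 1 p ≤ R := hpK
    omega
  have hpig : ∀ i, ∃ r : Γ, Reach (Cay S) (K : Set Γ) (x i) r ∧ InfC S R r := by
    intro i
    have hA : ({y | Reach (Cay S) (K : Set Γ) (x i) y} \ Kb S R 1).Infinite :=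
      (hinf i).sdiff (hW.fin 1 R)
    by_contra hcon
    apply hA
    have hfinS : {r : Γ | dd S 1 r ≤ R + 1}.Finite := hW.fin 1 (R + 1)
    refine Set.Finite.subset (hfinS.biUnion
      (t := fun r => {z | Reach (Cay S) (K : Set Γ) (x i) r ∧
        Reach (Cay S) (Kb S R 1) r z}) ?_) ?_
    · intro r _
      by_cases h : Reach (Cay S) (K : Set Γ) (x i) r
      · have h3 : ¬ InfC S R r := fun h4 => hcon ⟨r, h, h4⟩
        exact (Set.not_infinite.mp h3).subset (fun z hz => hz.2)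
      · exact Set.finite_empty.subset (fun z hz => (h hz.1).elim)
    · rintro z ⟨hz1, hz2⟩
      obtain ⟨r, hr1, hr2⟩ := hlev z hz2
      refine Set.mem_biUnion (x := r) ?_ ⟨?_, hr2⟩
      · exact le_of_eq hr1
      · exact hW.rtrans _ _ _ _ hz1 (hW.rsymm _ _ _ (hmono _ _ hr2))
  choose r hr1 hr2 using hpig
  refine ⟨R, hR1, r, hr2, ?_⟩
  intro i j hij h
  exact hne i j hij (hW.rtrans _ _ _ _ (hr1 i)
    (hW.rtrans _ _ _ _ (hmono _ _ h) (hW.rsymm _ _ _ (hr1 j))))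

end Pool.Agent.R667.PE.T0x
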