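import Pool.Agent.R667.PE.Stm

/-! Percolation on ball limits (MP_ac3f41_pr): piece V. -/

set_option autoImplicit false

open MeasureTheory Filter Topology

namespace Pool.Agent.R667.PE.Vx

open Pool.Agent.R667.PE

universe u

theorem t_V : S_V.{u} := by
  intro Γ _ S R hW hR hT hE c
  classical
  by_contra hcon0
  have hcon : ∀ a : Γ, 2 * R < dd S 1 a → Reach (Cay S) (Kb S R 1) c a ∨
      Reach (Cay S) (Kb S R 1) c a⁻¹ := by
    intro a ha
    by_contra h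
    exact hcon0 ⟨a, ha, fun h1 => h (Or.inl h1), fun h1 => h (Or.inr h1)⟩
  have hkey : ∀ u u' : Γ, dd S 1 u = dd S 1 u' →
      ¬ Reach (Cay S) (Kb S R 1) c u⁻¹ → Reach (Cay S) (Kb S R 1) c (u⁻¹ * u') →
      dd S u u' ≤ 2 * R := by
    intro u u' hd h1 h2
    have e1 := (hW.rinv R u 1 c (u⁻¹ * u')).mpr h2
    have e2 : ¬ Reach (Cay S) (Kb S R (u * 1)) (u * c) (u * u⁻¹) :=
      fun h => h1 ((hW.rinv R u 1 c u⁻¹).mp h)
    rw [mul_inv_cancel_left, mul_one] at e1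
    rw [mul_inv_cancel, mul_one] at e2
    have e3 : ¬ Reach (Cay S) (Kb S R u) 1 u' := fun h =>
      e2 (hW.rtrans _ _ _ _ e1 (hW.rsymm _ _ _ h))
    have e4 : ∃ p, dd S 1 p + dd S p u' = dd S 1 u' ∧ p ∈ Kb S R u := by
      by_contra h
      exact e3 (hW.rgeo _ _ _ (fun p hp hpK => h ⟨p, hp, hpK⟩))
    obtain ⟨p, hp1, hp2⟩ := e4
    have hp3 : dd S u p ≤ R := hp2
    have h4 := hW.tri 1 p u
    have h5 := hW.symm p u
    have h6 := hW.tri u p u'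
    omega
  have hU : ∀ u u' : Γ, dd S 1 u = dd S 1 u' → ¬ Reach (Cay S) (Kb S R 1) c u⁻¹ →
      ¬ Reach (Cay S) (Kb S R 1) c u'⁻¹ → dd S u u' ≤ 2 * R := by
    intro u u' hd h1 h2
    by_contra h
    have h3 : dd S 1 (u⁻¹ * u') = dd S u u' := by
      have := hW.inv u 1 (u⁻¹ * u')
      rw [mul_inv_cancel_left, mul_one] at this
      exact this.symm
    rcases hcon (u⁻¹ * u') (by omega) with h4 | h4
    · exact h (hkey u u' hd h1 h4)
    · have h5 : (u⁻¹ * u')⁻¹ = u'⁻¹ * u := by group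
      rw [h5] at h4
      have h6 := hkey u' u hd.symm h2 h4
      rw [hW.symm] at h6
      exact h h6
  have hinv : ∀ h : Γ, dd S 1 h⁻¹ = dd S 1 h := by
    intro h
    have h1 := hW.inv h 1 h⁻¹
    rw [mul_inv_cancel, mul_one] at h1
    rw [← h1]
    exact hW.symm _ _
  have hH : ∀ T : ℕ, Set.ncard {h : Γ | dd S 1 h = T ∧ ¬ Reach (Cay S) (Kb S R 1) c h} ≤
      bc S (2 * R) := by
    intro T
    rcases Set.eq_empty_or_nonempty
      {h : Γ | dd S 1 h = T ∧ ¬ Reach (Cay S) (Kb S R 1) c h} with h0 | ⟨h0, hh0⟩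
    · rw [h0]; simp
    · rw [← hW.card h0⁻¹ (2 * R)]
      refine Set.ncard_le_ncard_of_injOn (fun h => h⁻¹) ?_ ?_ (hW.fin _ _)
      · intro h hh
        refine hU h0⁻¹ h⁻¹ ?_ ?_ ?_
        · rw [hinv, hinv, hh0.1, hh.1]
        · rw [inv_inv]; exact hh0.2
        · rw [inv_inv]; exact hh.2
      · intro a _ b _ hab
        exact inv_injective hab
  obtain ⟨x, hx1, hx2⟩ := hT
  have hi : ∃ i, ¬ Reach (Cay S) (Kb S R 1) c (x i) := by
    by_contra h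
    have h0 : Reach (Cay S) (Kb S R 1) c (x 0) := by
      by_contra h'; exact h ⟨0, h'⟩
    have h1 : Reach (Cay S) (Kb S R 1) c (x 1) := by
      by_contra h'; exact h ⟨1, h'⟩
    exact hx2 0 1 (by decide) (hW.rtrans _ _ _ _ (hW.rsymm _ _ _ h0) h1)
  obtain ⟨i, hi⟩ := hi
  obtain ⟨T, hT1, hT2⟩ := hE (x i) (hx1 i) (bc S (2 * R) + 2 * R + 1)
  have hsub : {y | Reach (Cay S) (Kb S R 1) (x i) y ∧ dd S 1 y = T} ⊆
      {h : Γ | dd S 1 h = T ∧ ¬ Reach (Cay S) (Kb S R 1) c h} := by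
    rintro y ⟨hy1, hy2⟩
    exact ⟨hy2, fun h => hi (hW.rtrans _ _ _ _ h (hW.rsymm _ _ _ hy1))⟩
  have hfin : {h : Γ | dd S 1 h = T ∧ ¬ Reach (Cay S) (Kb S R 1) c h}.Finite :=
    (hW.fin 1 T).subset (fun y hy => le_of_eq hy.1)
  have h7 := Set.ncard_le_ncard hsub hfin
  have h8 := hH T
  omega

end Pool.Agent.R667.PE.Vx
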