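import Pool.Agent.R667.PE.Fin
import Pool.Agent.R667.PE.AS
import Pool.Agent.R667.PE.BASE
import Pool.Agent.R667.PE.BUSH
import Pool.Agent.R667.PE.CNT
import Pool.Agent.R667.PE.CT
import Pool.Agent.R667.PE.EXP
import Pool.Agent.R667.PE.FC
import Pool.Agent.R667.PE.GROW
import Pool.Agent.R667.PE.INF
import Pool.Agent.R667.PE.ISO
import Pool.Agent.R667.PE.LL
import Pool.Agent.R667.PE.MAINQ
import Pool.Agent.R667.PE.PAR
import Pool.Agent.R667.PE.PB
import Pool.Agent.R667.PE.PC1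
import Pool.Agent.R667.PE.PERC
import Pool.Agent.R667.PE.STAGE
import Pool.Agent.R667.PE.T0
import Pool.Agent.R667.PE.V

/-! Percolation on ball limits (MP_ac3f41_pr): the main theorem. -/

set_option autoImplicit false

open MeasureTheory Filter Topology

namespace Pool.Agent.R667.PE

universe u v w

theorem main (Γ : Type u) [Group Γ] (S : Finset Γ) (hS : GenSet S)
    (hE : ManyEnds (Cay S)) (Ω : Type v) [MeasurableSpace Ω] (P : Measure Ω) (V : Ω → Type w)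
    (H : ∀ ω, SimpleGraph (V ω)) (ρ : ∀ ω, V ω) (hH : IsBallLimit S P V H ρ) :
    ∀ᵐ ω ∂P, pc (H ω) = 1 :=
  final.{u, v, w} BASEx.t_BASE T0x.t_T0 EXPx.t_EXP Vx.t_V t_BUSH GROWx.t_GROW
    MAINQx.t_MAINQ CTx.t_CT PARx.t_PAR STAGEx.t_STAGE CNTx.t_CNT ASx.t_AS FCx.t_FC
    t_ISO PBx.t_PB LLx.t_LL INFx.t_INF PERCx.t_PERC PC1x.t_PC1
    Γ S hS hE Ω P V H ρ hH

end Pool.Agent.R667.PE
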