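import Pool.Agent.R667.PE.Stm

set_option autoImplicit false

open MeasureTheory Filter Topology

namespace Pool.Agent.R667.PE.PC1x

universe w

theorem ber_one : ber 1 = Measure.dirac true := by
  simp [ber]

theorem perc_one (V : Type w) : perc V 1 = Measure.dirac (fun _ => true) := by
  unfold perc
  simp only [ber_one]
  exact Measure.infinitePi_dirac fun _ => true

theorem openG_true {V : Type w} (X : SimpleGraph V) : openG X (fun _ => true) = X := by
  ext x y
  simp [openG]

theorem t_PC1 : S_PC1.{w} := by
  intro V X hX _ hV
  rw [perc_one]
  have hmem : (fun _ : Sym2 V => true) ∈ {η | InfCluster X η} := by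
    obtain ⟨x⟩ := hX.nonempty
    refine ⟨x, ?_⟩
    rw [openG_true]
    have : {y | X.Reachable x y} = Set.univ := by
      ext y
      simpa using hX.preconnected x y
    rw [this]
    exact Set.infinite_univ
  rw [Measure.dirac_apply_of_mem hmem]
  exact one_pos

end Pool.Agent.R667.PE.PC1x
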